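import Pool.Agent.Lib.MP_dee342_nt.Dc.Lists

/-! Cut points of a block decomposition. -/

set_option autoImplicit false

namespace Pool.Agent.Lib.MP_dee342_nt.Dc

open Finset Gr

/-- Twin: `dict_of_lists` in `Lists` (same `P`, `s`, `s1`-`s4`; the piece `k` is the list `P k`,
`List.ext_getElem` with `b4`, `b6`; `lists_mem`). -/
theorem cuts_of_lists (a : ℕ) (x : ℤ) (D : List ℤ) (n J R : ℕ) (hJ : 1 ≤ J)
    (h : ∀ k < R, ∃ F : List (List ℤ), F.length ≤ J ∧
      (∀ u ∈ F, u <:+: D) ∧ F.flatten = List.ofFn (parWord a n ((T a)^[k * n] x))) :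
    ∃ s : ℕ → ℕ, s 0 = 0 ∧ Monotone s ∧ s (R * J) = R * n ∧
      (∀ k < R * J, List.ofFn (parWord a (s (k + 1) - s k) ((T a)^[s k] x)) <:+: D) ∧
      ∀ k, k + 2 * J ≤ R * J → s k + n ≤ s (k + 2 * J) := by
  choose! F h1 h2 h3 using h
  obtain ⟨P, hP⟩ : ∃ P : ℕ → List ℤ, ∀ m, P m = (F (m / J)).getD (m % J) [] := ⟨_, fun _ => rfl⟩
  obtain ⟨s, hs⟩ : ∃ s : ℕ → ℕ, ∀ m, s m = ∑ j ∈ range m, (P j).length := ⟨_, fun _ => rfl⟩
  have s1 : ∀ m, s (m + 1) = s m + (P m).length := fun m => by rw [hs, hs, sum_range_succ]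
  have s2 : Monotone s := monotone_nat_of_le_succ fun m => by rw [s1]; omega
  have s3 : ∀ k i, i ≤ J → s (k * J + i) = s (k * J) + ((F k).take i).flatten.length := by
    intro k i
    induction i with
    | zero => simp
    | succ i ih =>
      intro hi
      have e1 : (k * J + i) / J = k := by
        rw [mul_comm, Nat.mul_add_div hJ, Nat.div_eq_of_lt hi, add_zero]
      have e2 : (k * J + i) % J = i := by
        rw [mul_comm, Nat.mul_add_mod, Nat.mod_eq_of_lt hi]
      rw [← add_assoc, s1, ih (by omega), lists_take, List.length_append, hP, e1, e2, add_assoc]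
  have s4 : ∀ k ≤ R, s (k * J) = k * n := by
    intro k
    induction k with
    | zero => simp [hs]
    | succ k ih =>
      intro hk
      rw [add_mul, one_mul, s3 k J le_rfl, ih (by omega), List.take_of_length_le (h1 k hk),
        h3 k hk, List.length_ofFn, add_mul, one_mul]
  refine ⟨s, by simp [hs], s2, s4 R le_rfl, fun m hm => ?_, fun m hm => ?_⟩
  · have hk : m / J < R := (Nat.div_lt_iff_lt_mul hJ).2 hm
    have e : List.ofFn (parWord a (P m).length ((T a)^[s m] x)) = P m := by
      refine List.ext_getElem List.length_ofFn fun i _ hi => ?_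
      have b3 : ((F (m / J)).take (m % J)).flatten ++ P m ++
          ((F (m / J)).drop (m % J + 1)).flatten = (F (m / J)).flatten := by
        rw [hP, ← lists_take, ← List.flatten_append, List.take_append_drop]
      have b4 := lists_get ((F (m / J)).take (m % J)).flatten (P m)
        ((F (m / J)).drop (m % J + 1)).flatten hi
      have b5 := congrArg List.length b3
      have b6 := s3 (m / J) (m % J) (Nat.mod_lt _ hJ).le
      rw [Nat.div_add_mod', s4 _ hk.le] at b6
      rw [h3 _ hk] at b5
      simp only [List.length_append, List.length_ofFn] at b5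
      rw [b3, h3 _ hk, List.getD_eq_getElem _ _ (by rw [List.length_ofFn]; omega),
        List.getElem_ofFn, List.getD_eq_getElem _ _ hi] at b4
      rw [List.getElem_ofFn, ← b4]
      simp only [parWord, ← Function.iterate_add_apply]
      congr 2
      omega
    rw [s1, Nat.add_sub_cancel_left, e, hP]
    exact lists_mem (F (m / J)) D (h2 _ hk) (m % J)
  · have c1 := Nat.div_add_mod' m J
    have c2 := Nat.mod_lt m hJ
    have c4 : (m / J + 2) * J ≤ m + 2 * J := by rw [add_mul]; omega
    have c3 : m / J + 2 ≤ R := Nat.le_of_mul_le_mul_right (c4.trans hm) hJ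
    have c5 : m ≤ (m / J + 1) * J := by rw [add_mul]; omega
    have c6 := s2 c4
    have c7 := s2 c5
    rw [s4 _ (by omega)] at c6 c7
    rw [add_mul] at c6 c7
    omega

end Pool.Agent.Lib.MP_dee342_nt.Dc
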