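import Pool.Agent.Lib.MP_dee342_nt.CxAff
import Pool.Agent.Lib.MP_dee342_nt.GrLZOne

/-! Definitions for the dictionary theorem. -/

set_option autoImplicit false

namespace Pool.Agent.Lib.MP_dee342_nt.Dc

open Finset Gr

/-- `z` has denominator dividing ` (2a)^t` and size at most ` (2a)^t Y`. -/
def Sm (a t : ℕ) (Y z : ℚ) : Prop :=
  (∃ m : ℤ, (2 * a : ℚ) ^ t * z = m) ∧ |z| ≤ (2 * a : ℚ) ^ t * Y

/-- The weight `2^u / a^(number of odd values before u)`. -/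
def nu (a : ℕ) (x : ℤ) (u : ℕ) : ℚ := 2 ^ u / (a : ℚ) ^ od a x 0 u

/-- The weighted value of the orbit. -/
def eta (a : ℕ) (x : ℤ) (u : ℕ) : ℚ := (((T a)^[u] x : ℤ) : ℚ) * nu a x u

/-- The parity word of `x` is cut at the times `s k`; piece `k < q` occurs at the place `o k` in the
first `L` letters of the parity word of `y`; any `J` consecutive pieces have at least `n` letters. -/
def Dict (a : ℕ) (x y : ℤ) (L n J q : ℕ) (s o : ℕ → ℕ) : Prop :=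
  s 0 = 0 ∧ Monotone s ∧ (∀ k < q, o k + (s (k + 1) - s k) ≤ L ∧
    ∀ i < s (k + 1) - s k, par a x (s k + i) = par a y (o k + i)) ∧
    ∀ k, k + J ≤ q → s k + n ≤ s (k + J)

/-- A solution on the pieces `p ≤ k < p + W`, with coefficients `A` and jumps `B`. -/
def Sl (a : ℕ) (x : ℤ) (s : ℕ → ℕ) (p W t : ℕ) (Y : ℚ) (A B G : ℕ → ℚ) : Prop :=
  (∀ k, p ≤ k → k < p + W → G (k + 1) * nu a x (s (k + 1)) = (G k + B k) * nu a x (s k) +
    A k * (eta a x (s (k + 1)) - eta a x (s k)) ∧ Sm a t 1 (A k) ∧ Sm a t 1 (B k)) ∧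
    ∀ k, p ≤ k → k ≤ p + W → Sm a t Y (G k)

/-- The coefficients and jumps on `l` consecutive pieces. -/
def vec (l : ℕ) (A B : ℕ → ℚ) (k : ℕ) : Fin (l + l) → ℚ :=
  Fin.append (fun i : Fin l => A (k + i)) fun i : Fin l => B (k + i)

/-- `r` solutions, one of them the orbit, of rank at least `σ` on all windows of length `l`. -/
def Fm (a : ℕ) (x : ℤ) (s : ℕ → ℕ) (l r p W t : ℕ) (Y : ℚ) (σ : ℕ) : Prop :=
  ∃ (A B G : Fin r → ℕ → ℚ) (b₀ : Fin r), (∀ b, Sl a x s p W t Y (A b) (B b) (G b)) ∧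
    (∀ k, G b₀ k = ((T a)^[s k] x : ℤ)) ∧ ∀ k, p ≤ k → k + l ≤ p + W →
      σ ≤ Module.finrank ℚ (Submodule.span ℚ (Set.range fun b => vec l (A b) (B b) k))

/-- `u` and `v` differ by at most `d`. -/
def Cl (d u v : ℕ) : Prop := u ≤ v + d ∧ v ≤ u + d

variable {a t t' : ℕ} {Y Y' z z' : ℚ}

theorem Sm.mono (ha : 1 ≤ a) (h : Sm a t Y z) (ht : t ≤ t') (hY : Y ≤ Y') : Sm a t' Y' z := by
  obtain ⟨⟨m, hm⟩, h⟩ := h
  obtain ⟨j, rfl⟩ := Nat.exists_eq_add_of_le ht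
  have h1 : (1 : ℚ) ≤ 2 * a := by exact_mod_cast (by omega : 1 ≤ 2 * a)
  have h2 : (0 : ℚ) < (2 * a : ℚ) ^ t := by positivity
  have h3 : 0 ≤ Y := nonneg_of_mul_nonneg_right ((abs_nonneg _).trans h) h2
  refine ⟨⟨(2 * a) ^ j * m, by push_cast; rw [← hm]; ring⟩, h.trans ?_⟩
  exact mul_le_mul (pow_le_pow_right₀ h1 ht) hY h3 (by positivity)

theorem Sm.mul (h : Sm a t 1 z) (h' : Sm a t' Y z') : Sm a (t + t') Y (z * z') := by
  obtain ⟨⟨m, hm⟩, h⟩ := h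
  obtain ⟨⟨m', hm'⟩, h'⟩ := h'
  refine ⟨⟨m * m', by push_cast; rw [← hm, ← hm']; ring⟩, ?_⟩
  rw [abs_mul, pow_add, mul_assoc]
  exact mul_le_mul (by simpa using h) h' (abs_nonneg _) (by positivity)

theorem Sm.add (ha : 1 ≤ a) (h : Sm a t Y z) (h' : Sm a t Y z') : Sm a (t + 1) Y (z + z') := by
  obtain ⟨⟨m, hm⟩, h⟩ := h
  obtain ⟨⟨m', hm'⟩, h'⟩ := h'
  have h1 : (1 : ℚ) ≤ a := by exact_mod_cast ha
  refine ⟨⟨2 * a * (m + m'), by push_cast; rw [← hm, ← hm']; ring⟩, (abs_add_le _ _).trans ?_⟩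
  have h2 := (abs_nonneg _).trans h
  rw [pow_succ]
  nlinarith

theorem Sm.neg (h : Sm a t Y z) : Sm a t Y (-z) := by
  obtain ⟨⟨m, hm⟩, h⟩ := h
  exact ⟨⟨-m, by push_cast; rw [← hm]; ring⟩, by rwa [abs_neg]⟩

theorem Sm.int (m : ℤ) (h : |(m : ℚ)| ≤ Y) : Sm a 0 Y m := ⟨⟨m, by simp⟩, by simpa using h⟩

theorem nu_pos (ha : 1 ≤ a) (x : ℤ) (u : ℕ) : 0 < nu a x u := by
  have : (0 : ℚ) < a := by exact_mod_cast ha
  unfold nu
  positivity

theorem nu_add (ha : 1 ≤ a) (x : ℤ) (u l : ℕ) :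
    nu a x (u + l) * (a : ℚ) ^ od a x u l = nu a x u * 2 ^ l := by
  have : (a : ℚ) ≠ 0 := by exact_mod_cast (by omega : a ≠ 0)
  unfold nu
  rw [od_add, zero_add, pow_add, pow_add]
  field_simp

theorem eta_add (ha : 1 ≤ a) (x : ℤ) (u l : ℕ) :
    (eta a x (u + l) - eta a x u) * (a : ℚ) ^ od a x u l = nu a x u * cs a x u l := by
  have h := nu_add ha x u l
  unfold eta cs
  push_cast
  linear_combination (((T a)^[u + l] x : ℤ) : ℚ) * h

theorem Sl.sub {x : ℤ} {s : ℕ → ℕ} {p W p' W' : ℕ} {A B G : ℕ → ℚ} (ha : 1 ≤ a)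
    (h : Sl a x s p W t Y A B G) (hp : p ≤ p') (hW : p' + W' ≤ p + W) (ht : t ≤ t') :
    Sl a x s p' W' t' Y A B G :=
  ⟨fun k h1 h2 => have h3 := h.1 k (by omega) (by omega)
    ⟨h3.1, h3.2.1.mono ha ht le_rfl, h3.2.2.mono ha ht le_rfl⟩,
    fun k h1 h2 => (h.2 k (by omega) (by omega)).mono ha ht le_rfl⟩

theorem Dict.far {x y : ℤ} {L n J q : ℕ} {s o : ℕ → ℕ} (h : Dict a x y L n J q s o) (k m : ℕ)
    (hk : k + J * m ≤ q) : s k + m * n ≤ s (k + J * m) := by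
  induction m with
  | zero => simp
  | succ m ih =>
    rw [mul_add, mul_one, ← add_assoc] at hk ⊢
    have h1 := ih (by omega)
    have h2 := h.2.2.2 _ hk
    rw [add_mul]
    omega

theorem Dict.len {x y : ℤ} {L n J q : ℕ} {s o : ℕ → ℕ} (h : Dict a x y L n J q s o) (k m : ℕ)
    (hk : k + m ≤ q) : s (k + m) ≤ s k + m * L := by
  induction m with
  | zero => simp
  | succ m ih =>
    have h1 := ih (by omega)
    have h2 := (h.2.2.1 (k + m) (by omega)).1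
    rw [add_mul, ← add_assoc]
    omega

end Pool.Agent.Lib.MP_dee342_nt.Dc
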