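import Pool.Agent.Lib.MP_dee342_nt.Dc.Defs
import Pool.Agent.Lib.MP_dee342_nt.RgRound

/-! The determinant bound. -/

set_option autoImplicit false

namespace Pool.Agent.Lib.MP_dee342_nt.Dc

open Finset Gr

theorem det_low (a : ℕ) (ha : Odd a) (r B E : ℕ) (hE : 1 ≤ E) : ∃ N₀ : ℕ, ∀ N ≥ N₀,
    ∀ (σ τ : ℕ) (φ : Matrix (Fin r) (Fin r) ℤ) (d : Fin r → ℤ) (S T : ℤ), N ≤ σ → σ ≤ B * N →
      τ ≤ B * N → 2 * ((r + 1) * (N / E)) ≤ N → r.factorial * 2 ^ r ≤ 2 ^ (N / E) →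
      (∀ i j, |φ i j| ≤ 2 ^ (N / E)) → (∀ i, d i ≠ 0 ∧ |d i| ≤ 2 ^ (N / E)) →
      (S = 2 ^ σ ∧ T = (a : ℤ) ^ τ ∨ S = (a : ℤ) ^ τ ∧ T = 2 ^ σ) →
      T ^ r ≤ |(S • φ - T • Matrix.diagonal d).det| * (2 ^ (N / E)) ^ (r * (r + 1) + 1) := by
  obtain ⟨N₀, H⟩ := form_lower a ha r B E hE
  refine ⟨N₀, fun N hN σ τ φ d S T h1 h2 h3 h4 h5 hφ hd h0 => ?_⟩
  obtain ⟨c, c1, c2, -, c4⟩ := det_expand φ d (2 ^ (N / E)) (one_le_pow₀ one_le_two) hφ
    fun i => (hd i).2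
  have hc : ∀ i, |c i| ≤ 2 ^ ((r + 1) * (N / E)) := by
    intro i
    refine (c1 i).trans ?_
    have h6 : ((r.factorial : ℤ) * 2 ^ r) ≤ 2 ^ (N / E) := by exact_mod_cast h5
    rw [mul_comm (r + 1), pow_mul, pow_succ']
    exact mul_le_mul_of_nonneg_right h6 (by positivity)
  have c0 : c 0 ≠ 0 := by
    rw [c2]
    exact prod_ne_zero_iff.2 fun i _ => neg_ne_zero.2 (hd i).1
  rw [← pow_mul, show N / E * (r * (r + 1) + 1) = r * ((r + 1) * (N / E)) + N / E by ring, c4]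
  rcases h0 with ⟨rfl, rfl⟩ | ⟨rfl, rfl⟩
  · simpa using H N hN σ τ _ c h1 h2 h3 h4 (fun i _ => hc i) 0 (Nat.zero_le _) c0
  · have k := H N hN σ τ _ (fun i => c (r - i)) h1 h2 h3 h4 (fun i _ => hc _) r le_rfl
      (by simpa using c0)
    rw [Nat.sub_self, pow_zero, mul_one, ← sum_range_reflect] at k
    refine k.trans (le_of_eq ?_)
    congr 2
    refine sum_congr rfl fun i hi => ?_
    have hi' : i ≤ r := Nat.lt_succ_iff.1 (mem_range.1 hi)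
    rw [Nat.add_sub_cancel, Nat.sub_sub_self hi']
    ring

theorem det_start {r : ℕ} (φ : Matrix (Fin (r + 1)) (Fin (r + 1)) ℤ) (d : Fin (r + 1) → ℤ)
    (g : Fin (r + 1) → ℝ) (S T X : ℤ) (hS : 0 < S) (hT : S ≤ T) (e : ℕ) (y : ℝ)
    (hφ : ∀ i j, |φ i j| ≤ X) (hd : ∀ i, |d i| ≤ X)
    (hdet : T ^ (r + 1) ≤ |(S • φ - T • Matrix.diagonal d).det| * X ^ e)
    (hy : ∀ b, |d b * g b - S / T * ∑ b', φ b b' * g b'| ≤ y) (b : Fin (r + 1)) :
    |g b| ≤ (r + 1).factorial * 2 ^ r * (X : ℝ) ^ (e + r) * y := by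
  have hS' : (0 : ℝ) < S := by exact_mod_cast hS
  have hST : (S : ℝ) ≤ T := by exact_mod_cast hT
  have hT' : (0 : ℝ) < T := hS'.trans_le hST
  have hd' : ∀ i, |(d i : ℝ)| ≤ X := fun i => by exact_mod_cast hd i
  have hX' : (0 : ℝ) ≤ X := (abs_nonneg _).trans (hd' b)
  set M := (S • φ - T • Matrix.diagonal d).map (Int.cast : ℤ → ℝ) with hM
  have hMe : ∀ i j, M i j = S * φ i j - if i = j then (T : ℝ) * d i else 0 := by
    intro i j
    rw [hM, Matrix.map_apply, Matrix.sub_apply, Matrix.smul_apply, Matrix.smul_apply,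
      Matrix.diagonal_apply, smul_eq_mul, smul_eq_mul]
    split_ifs <;> simp
  have h1 : ∀ i j, |M i j| ≤ 2 * X * T := by
    intro i j
    have k1 : |(S : ℝ) * φ i j| ≤ T * X := by
      rw [abs_mul, abs_of_pos hS']
      exact mul_le_mul hST (by exact_mod_cast hφ i j) (abs_nonneg _) hT'.le
    have k2 : |if i = j then (T : ℝ) * d i else 0| ≤ T * X := by
      split_ifs
      · rw [abs_mul, abs_of_pos hT']
        exact mul_le_mul_of_nonneg_left (hd' i) hT'.le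
      · rw [abs_zero]
        positivity
    rw [hMe]
    linarith [abs_sub ((S : ℝ) * φ i j) (if i = j then (T : ℝ) * d i else 0)]
  have h2 : ∀ i, |M.mulVec g i| ≤ T * y := by
    intro i
    have k2 : M.mulVec g i = T * -(d i * g i - S / T * ∑ b', φ i b' * g b') := by
      simp only [Matrix.mulVec, dotProduct, hMe, sub_mul, sum_sub_distrib, mul_assoc, ← mul_sum,
        ite_mul, zero_mul, sum_ite_eq, mem_univ, if_true]
      field_simp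
      ring
    rw [k2, abs_mul, abs_neg, abs_of_pos hT']
    exact mul_le_mul_of_nonneg_left (hy i) hT'.le
  have h3 := cramer_bound M _ _ _ (by positivity) h1 h2 b
  have h4 : (T : ℝ) ^ (r + 1) ≤ |M.det| * (X : ℝ) ^ e := by
    have k1 : M.det = ((S • φ - T • Matrix.diagonal d).det : ℤ) := (Int.cast_det _).symm
    rw [k1]
    exact_mod_cast hdet
  refine le_of_mul_le_mul_left ?_ (pow_pos hT' (r + 1))
  calc (T : ℝ) ^ (r + 1) * |g b| ≤ |M.det| * (X : ℝ) ^ e * |g b| :=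
        mul_le_mul_of_nonneg_right h4 (abs_nonneg _)
    _ = |M.det| * |g b| * (X : ℝ) ^ e := by ring
    _ ≤ ((r + 1).factorial * (2 * X * T) ^ (r + 1 - 1) * (T * y)) * (X : ℝ) ^ e :=
        mul_le_mul_of_nonneg_right h3 (by positivity)
    _ = _ := by
        rw [Nat.add_sub_cancel]
        ring

/-- Model: `rground_det`, `rground_start` in `RgRound`. Write `ρ = S / T`, `X = 2^(N/E)`,
`M = S • φ - T • diagonal Δ`. `det_expand`, whose coefficient `c 0 = ∏ (-Δ i)` is nonzero, and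
`form_lower` (with `u = (r+1) (N/E)`; `i₁ = 0` if `S = 2^σ`; if `S = a^τ` reflect the sum,
`Finset.sum_range_reflect`, `c' i = c (r - i)`, `i₁ = r`) give `T^r ≤ |det M| X^(r (r+1) + 1)`.
The entries of `M` are at most `2 X T` as `S ≤ T`, and `|M g| ≤ T y`, so `cramer_bound` gives
`|det M| |g b| ≤ r! (2 X T)^(r-1) T y`; finally `r! 2^r ≤ X` for large `N`. -/
theorem det_small (a : ℕ) (ha : Odd a) (r B E : ℕ) (hE : 2 * (r + 1) ≤ E) : ∃ N₀ : ℕ, ∀ N ≥ N₀,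
    ∀ (σ τ : ℕ) (φ : Fin r → Fin r → ℤ) (Δ : Fin r → ℤ) (ρ y : ℚ) (g : Fin r → ℚ),
      N ≤ σ → σ ≤ B * N → τ ≤ B * N → (ρ = 2 ^ σ / (a : ℚ) ^ τ ∨ ρ = (a : ℚ) ^ τ / 2 ^ σ) → ρ ≤ 1 →
      (∀ i j, |(φ i j : ℚ)| ≤ 2 ^ (N / E)) → (∀ i, Δ i ≠ 0 ∧ |(Δ i : ℚ)| ≤ 2 ^ (N / E)) →
      (∀ b, |Δ b * g b - ρ * ∑ b', φ b b' * g b'| ≤ y) →
      ∀ b, |g b| ≤ (2 ^ (N / E)) ^ (r + 1) ^ 2 * y := by
  obtain ⟨N₀, H⟩ := det_low a ha r B E (by omega)
  refine ⟨N₀ + E * (r.factorial * 2 ^ r), fun N hN σ τ φ Δ ρ y g h1 h2 h3 hρ hρ1 hφ hΔ hy b => ?_⟩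
  have h4 : 2 * ((r + 1) * (N / E)) ≤ N := by
    rw [← mul_assoc]
    exact (Nat.mul_le_mul_right _ hE).trans (Nat.mul_div_le N E)
  have h5 : r.factorial * 2 ^ r ≤ 2 ^ (N / E) := by
    refine le_trans ?_ Nat.lt_two_pow_self.le
    rw [Nat.le_div_iff_mul_le (by omega), mul_comm]
    omega
  have ha0 : (0 : ℤ) < a := by exact_mod_cast ha.pos
  obtain ⟨S, T, hST, hS, hT, e⟩ : ∃ S T : ℤ,
      (S = 2 ^ σ ∧ T = (a : ℤ) ^ τ ∨ S = (a : ℤ) ^ τ ∧ T = 2 ^ σ) ∧ 0 < S ∧ 0 < T ∧ ρ = S / T := by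
    rcases hρ with h | h
    · exact ⟨_, _, Or.inl ⟨rfl, rfl⟩, by positivity, by positivity, by rw [h]; push_cast; rfl⟩
    · exact ⟨_, _, Or.inr ⟨rfl, rfl⟩, by positivity, by positivity, by rw [h]; push_cast; rfl⟩
  have hle : S ≤ T := by
    rw [e, div_le_one (by exact_mod_cast hT)] at hρ1
    exact_mod_cast hρ1
  have hφ' : ∀ i j, |φ i j| ≤ 2 ^ (N / E) := fun i j => by exact_mod_cast hφ i j
  have hΔ' : ∀ i, |Δ i| ≤ 2 ^ (N / E) := fun i => by exact_mod_cast (hΔ i).2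
  have k := H N (by omega) σ τ (Matrix.of φ) Δ S T h1 h2 h3 h4 h5 hφ'
    (fun i => ⟨(hΔ i).1, hΔ' i⟩) hST
  have hy0 : (0 : ℝ) ≤ y := by exact_mod_cast (abs_nonneg _).trans (hy b)
  obtain ⟨r, rfl⟩ : ∃ s, r = s + 1 := ⟨r - 1, by have := b.2; omega⟩
  have k1 := det_start (Matrix.of φ) Δ (fun i => (g i : ℝ)) S T _ hS hle _ y hφ' hΔ' k
    (fun i => by
      have := hy i
      rw [e] at this
      simp only [Matrix.of_apply]
      exact_mod_cast this) b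
  have h6 : (((r + 1).factorial : ℝ) * 2 ^ r) ≤ 2 ^ (N / E) := by
    have : (r + 1).factorial * 2 ^ r ≤ 2 ^ (N / E) :=
      (Nat.mul_le_mul_left _ (Nat.pow_le_pow_right two_pos r.le_succ)).trans h5
    exact_mod_cast this
  have k2 : |(g b : ℝ)| ≤ (2 ^ (N / E)) ^ (r + 1 + 1) ^ 2 * y := by
    refine k1.trans (mul_le_mul_of_nonneg_right ?_ hy0)
    rw [show (r + 1 + 1) ^ 2 = ((r + 1) * (r + 1 + 1) + 1 + r) + 1 by ring, pow_succ']
    push_cast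
    exact mul_le_mul_of_nonneg_right h6 (by positivity)
  exact_mod_cast k2

end Pool.Agent.Lib.MP_dee342_nt.Dc
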