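import Pool.Agent.Lib.MP_dee342_nt.Dc.Defs

/-! The weighted value of a solution moves slowly. -/

set_option autoImplicit false

namespace Pool.Agent.Lib.MP_dee342_nt.Dc

open Finset Gr

theorem evol_one {a : ℕ} (ha : Odd a) (x : ℤ) (u : ℕ) :
    |eta a x (u + 1) - eta a x u| ≤ nu a x u := by
  have h1 : 1 ≤ a := ha.pos
  have h2 := eta_add h1 x u 1
  have h3 := nu_pos h1 x u
  by_cases hp : par a x u = 0
  · obtain ⟨e1, e2⟩ := cxaff_even a x u hp
    rw [e1, e2, pow_zero, mul_one, Int.cast_zero, mul_zero] at h2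
    rw [h2, abs_zero]
    exact h3.le
  · obtain ⟨e1, e2⟩ := cxaff_odd ha x u hp
    rw [e1, e2, pow_one, Int.cast_one, mul_one] at h2
    have h4 : (1 : ℚ) ≤ a := by exact_mod_cast h1
    rw [← h2, abs_le]
    rw [← h2] at h3
    have h5 := (mul_pos_iff_of_pos_right (by linarith : (0 : ℚ) < a)).1 h3
    constructor <;> nlinarith

/-- Induction on `v - u`; one step is `eta_add` with `l = 1` and `cxaff_even`, `cxaff_odd`: the
increment is `0` or `nu / a`. -/
theorem eta_le {a : ℕ} (ha : Odd a) (x : ℤ) {u v : ℕ} (huv : u ≤ v) {M : ℚ}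
    (hM : ∀ i, u ≤ i → i ≤ v → nu a x i ≤ M) :
    |eta a x v - eta a x u| ≤ ((v - u : ℕ) : ℚ) * M := by
  induction v, huv using Nat.le_induction with
  | base => simp
  | succ v huv ih =>
    have h1 := ih fun i h2 h3 => hM i h2 (by omega)
    have h2 := (evol_one ha x v).trans (hM v huv (by omega))
    have h3 := abs_sub_le (eta a x (v + 1)) (eta a x v) (eta a x u)
    rw [show v + 1 - u = v - u + 1 by omega]
    push_cast
    linarith

/-- Induction on `k₂` from `k₁`; one step moves the value by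
`B k * nu (s k) + A k * (eta (s (k+1)) - eta (s k))`; use `eta_le`, `nu_pos`. -/
theorem evol {a : ℕ} (ha : Odd a) {x : ℤ} {s : ℕ → ℕ} (hs : Monotone s) {p W t : ℕ} {Y : ℚ}
    {A B G : ℕ → ℚ} (h : Sl a x s p W t Y A B G) {k₁ k₂ : ℕ} (h1 : p ≤ k₁) (h2 : k₁ ≤ k₂)
    (h3 : k₂ ≤ p + W) {M : ℚ} (hM : ∀ i, s k₁ ≤ i → i ≤ s k₂ → nu a x i ≤ M) :
    |G k₂ * nu a x (s k₂) - G k₁ * nu a x (s k₁)| ≤
      (2 * a : ℚ) ^ t * ((k₂ - k₁ + (s k₂ - s k₁) : ℕ) : ℚ) * M := by
  induction k₂, h2 using Nat.le_induction with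
  | base => simp
  | succ k hk ih =>
    have m1 : s k₁ ≤ s k := hs hk
    have m2 : s k ≤ s (k + 1) := hs (Nat.le_succ k)
    have a1 := ih (by omega) fun i h4 h5 => hM i h4 (h5.trans m2)
    obtain ⟨e, ⟨-, hA⟩, -, hB⟩ := h.1 k (by omega) (by omega)
    have a2 := eta_le ha x m2 fun i h4 h5 => hM i (m1.trans h4) h5
    have a3 := hM (s k) m1 m2
    have a4 := nu_pos ha.pos x (s k)
    rw [mul_one] at hA hB
    have a5 : |B k * nu a x (s k)| ≤ (2 * a : ℚ) ^ t * M := by
      rw [abs_mul, abs_of_pos a4]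
      exact mul_le_mul hB a3 a4.le (by positivity)
    have a6 : |A k * (eta a x (s (k + 1)) - eta a x (s k))| ≤
        (2 * a : ℚ) ^ t * (((s (k + 1) - s k : ℕ) : ℚ) * M) := by
      rw [abs_mul]
      exact mul_le_mul hA a2 (abs_nonneg _) (by positivity)
    have a7 : G (k + 1) * nu a x (s (k + 1)) - G k₁ * nu a x (s k₁) =
        G k * nu a x (s k) - G k₁ * nu a x (s k₁) + B k * nu a x (s k) +
          A k * (eta a x (s (k + 1)) - eta a x (s k)) := by
      rw [e]
      ring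
    rw [a7, show k + 1 - k₁ + (s (k + 1) - s k₁) =
      k - k₁ + (s k - s k₁) + 1 + (s (k + 1) - s k) by omega]
    refine (abs_add_three _ _ _).trans ?_
    generalize k - k₁ + (s k - s k₁) = n at a1 ⊢
    generalize s (k + 1) - s k = m at a6 ⊢
    push_cast
    linarith

end Pool.Agent.Lib.MP_dee342_nt.Dc
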