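import Pool.Agent.Lib.MP_dee342_nt.Dc.Lag

/-! The growth bound for a dictionary parse. -/

set_option autoImplicit false

namespace Pool.Agent.Lib.MP_dee342_nt.Dc

open Finset Gr

theorem grow_piece {s : ℕ → ℕ} (h0 : s 0 = 0) (q i : ℕ) (hi : i < s q) :
    ∃ k < q, s k ≤ i ∧ i < s (k + 1) := by
  induction q with
  | zero => omega
  | succ q ih =>
    rcases lt_or_ge i (s q) with h | h
    · obtain ⟨k, h1, h2⟩ := ih h
      exact ⟨k, by omega, h2⟩
    · exact ⟨q, by omega, h, hi⟩

/-- For `i < s q` let `k i < q` be the piece with `s k ≤ i < s (k+1)`, `π i = o k + (i - s k) < L`,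
`f i` the least `i'` with `π i' = π i`, `v i = i - f i`. Then `π` is injective on `{v = 0}`, and
`par x i = par y (π i) = par x (f i)`. Let `c` consist of the `s k`, `s k + (o j - o k)`,
`s k + (e j - o k)`, `j, k < q` (`e j = o j + (s (j+1) - s j)`). If `i + 1 ∉ c` then `i`, `i + 1` lie
in one piece, `π (i+1) = π i + 1` is no `o j` and no `e j`, so `f i + 1` is in the piece of `f i`
and `f (i+1) - 1` in the piece of `f (i+1)`: `f (i+1) = f i + 1`. -/
theorem lag_of_dict {a : ℕ} {x y : ℤ} {L n J q : ℕ} {s o : ℕ → ℕ} (hD : Dict a x y L n J q s o) :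
    ∃ (v : ℕ → ℕ) (c : Finset ℕ), c.card ≤ q + 2 * (q * q) ∧
      (∀ i, i + 1 < s q → i + 1 ∉ c → v (i + 1) = v i) ∧
      (∀ i < s q, v i ≠ 0 → v i ≤ i ∧ par a x i = par a x (i - v i)) ∧
      ((range (s q)).filter fun i => v i = 0).card ≤ L := by
  classical
  obtain ⟨h0, hm, hw, -⟩ := hD
  choose! K k1 k2 k3 using grow_piece h0 q
  have hU : ∀ i k, i < s q → s k ≤ i → i < s (k + 1) → K i = k := fun i k hi h1 h2 => by
    have h3 := k2 i hi
    have h4 := k3 i hi
    rcases lt_trichotomy (K i) k with h | h | h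
    · have := hm (show K i + 1 ≤ k from h)
      omega
    · exact h
    · have := hm (show k + 1 ≤ K i from h)
      omega
  obtain ⟨π, hπ⟩ : ∃ π : ℕ → ℕ, ∀ i, π i = o (K i) + (i - s (K i)) := ⟨_, fun _ => rfl⟩
  have ex : ∀ i, ∃ j, π j = π i := fun i => ⟨i, rfl⟩
  obtain ⟨f, f1, f2⟩ : ∃ f : ℕ → ℕ, (∀ i, π (f i) = π i) ∧ ∀ i j, π j = π i → f i ≤ j :=
    ⟨fun i => Nat.find (ex i), fun i => Nat.find_spec (ex i), fun i _ h => Nat.find_min' (ex i) h⟩
  have f3 : ∀ i, f i ≤ i := fun i => f2 i i rfl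
  have hpar : ∀ i < s q, par a x i = par a y (π i) := fun i hi => by
    have h1 := k2 i hi
    have h2 := k3 i hi
    have h3 := (hw _ (k1 i hi)).2 (i - s (K i)) (by omega)
    rwa [Nat.add_sub_cancel' h1, ← hπ] at h3
  refine ⟨fun i => i - f i, (range q).image s ∪
    ((range q ×ˢ range q).image (fun p => s p.1 + (o p.2 - o p.1)) ∪
      (range q ×ˢ range q).image fun p => s p.1 + (o p.2 + (s (p.2 + 1) - s p.2) - o p.1)),
    ?_, fun i hi hc => ?_, fun i hi _ => ⟨Nat.sub_le _ _, ?_⟩, ?_⟩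
  · refine (card_union_le _ _).trans (add_le_add (card_image_le.trans (card_range q).le)
      ((card_union_le _ _).trans ((add_le_add card_image_le card_image_le).trans (le_of_eq ?_))))
    rw [card_product, card_range, two_mul]
  · simp only [mem_union, mem_image, mem_product, mem_range, not_or, not_exists, not_and,
      Prod.forall, and_imp] at hc
    obtain ⟨c1, c2, c3⟩ := hc
    have a1 := k1 _ hi
    have a2 := k2 _ hi
    have a3 := k3 _ hi
    have a4 := c1 _ a1
    have a5 : K i = K (i + 1) := hU i _ (by omega) (by omega) (by omega)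
    have a6 := hπ i
    have a7 := hπ (i + 1)
    rw [a5] at a6
    have b0 := f3 i
    have b0' := f3 (i + 1)
    have b1 : f (i + 1) ≤ f i + 1 := by
      have d0 : f i < s q := by omega
      have d1 := k2 _ d0
      have d2 := k3 _ d0
      have d3 := c3 _ _ a1 (k1 _ d0)
      have d4 := hπ (f i)
      have d5 := f1 i
      have d6 : K (f i + 1) = K (f i) := hU _ _ (by omega) (by omega) (by omega)
      have d7 := hπ (f i + 1)
      rw [d6] at d7
      exact f2 _ _ (by omega)
    have b2 : f i + 1 ≤ f (i + 1) := by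
      have d0 : f (i + 1) < s q := by omega
      have d1 := k2 _ d0
      have d2 := k3 _ d0
      have d3 := c2 _ _ a1 (k1 _ d0)
      have d4 := hπ (f (i + 1))
      have d5 := f1 (i + 1)
      have d8 : s (K (f (i + 1))) < f (i + 1) := by omega
      have d6 : K (f (i + 1) - 1) = K (f (i + 1)) := hU _ _ (by omega) (by omega) (by omega)
      have d7 := hπ (f (i + 1) - 1)
      rw [d6] at d7
      have d9 := f2 i (f (i + 1) - 1) (by omega)
      omega
    show i + 1 - f (i + 1) = i - f i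
    omega
  · show par a x i = par a x (i - (i - f i))
    rw [Nat.sub_sub_self (f3 i), hpar i hi, hpar _ ((f3 i).trans_lt hi), f1]
  · rw [← card_range L]
    refine card_le_card_of_injOn π (fun i hi => ?_) fun i hi j hj e => ?_
    · have h1 := mem_range.1 (mem_filter.1 (mem_coe.1 hi)).1
      have h2 := k2 i h1
      have h3 := k3 i h1
      have h4 := (hw _ (k1 i h1)).1
      have h5 := hπ i
      exact mem_coe.2 (mem_range.2 (by omega))
    · have h1 : i - f i = 0 := (mem_filter.1 (mem_coe.1 hi)).2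
      have h2 : j - f j = 0 := (mem_filter.1 (mem_coe.1 hj)).2
      have h3 := f2 i j e.symm
      have h4 := f2 j i e
      omega

theorem growth_dict (a : ℕ) (ha : Odd a) (ha3 : 3 ≤ a) : ∃ c : ℕ, ∀ q : ℕ, ∃ N₀ : ℕ, ∀ N ≥ N₀,
    ∀ (x y : ℤ) (n J : ℕ) (s o : ℕ → ℕ), |x| ≤ 2 ^ N → Dict a x y N n J q s o →
      ∀ i, i + c * N ≤ s q → |(T a)^[i] x| ≤ 2 ^ (c * N) := by
  obtain ⟨c, hc⟩ := growth a ha ha3
  refine ⟨c, fun q => ?_⟩
  obtain ⟨N₀, h⟩ := hc (q + 2 * (q * q) + 1) q
  refine ⟨N₀, fun N hN x y n J s o hx hD i hi => ?_⟩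
  obtain ⟨v, e, h0, h1, h2, h3⟩ := lag_of_dict hD
  obtain ⟨s', w, hP, hs⟩ := parse_of_lag a x _ _ _ v e h0 h1 h2 h3
  have h4 := hD.len 0 q (by omega)
  rw [zero_add, hD.1, zero_add] at h4
  exact h N hN x s' w hx hP (hs ▸ h4) i (hs ▸ hi)

end Pool.Agent.Lib.MP_dee342_nt.Dc
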