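import Pool.Agent.Lib.MP_dee342_nt.Dc.Defs

/-! A parse from a lag function with few changes. -/

set_option autoImplicit false

namespace Pool.Agent.Lib.MP_dee342_nt.Dc

open Finset Gr

theorem lag_pad (a x : ℤ) (q : ℕ) : grlzone_P a x q 0 0 := by
  induction q with
  | zero => exact grlzone_zero a x
  | succ q ih => exact grlzone_app ih 0 0 0 le_rfl (by simp) fun h => absurd rfl h

theorem lag_last {a x : ℤ} {q e S N : ℕ} {v : ℕ → ℕ} (heS : e ≤ S)
    (hP : grlzone_P a x q ((range e).filter fun i => v i = 0).card e)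
    (h1 : ∀ i, e ≤ i → i + 1 < S → v (i + 1) = v i)
    (h2 : ∀ i < S, v i ≠ 0 → v i ≤ i ∧ par a x i = par a x (i - v i))
    (h3 : ((range S).filter fun i => v i = 0).card ≤ N) : grlzone_P a x (q + 1) N S := by
  rcases heS.eq_or_lt with h | h
  · subst h
    exact grlzone_app hP e 0 N le_rfl (by simpa using h3) fun h => absurd rfl h
  have hk : ∀ i, e ≤ i → i < S → v i = v e := by
    intro i hi
    induction i, hi using Nat.le_induction with
    | base => exact fun _ => rfl
    | succ i hi ih => exact fun hS => (h1 i hi hS).trans (ih (by omega))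
  refine grlzone_app hP S (v e) N heS (le_trans ?_ h3) fun hv =>
    ⟨(h2 e h hv).1, fun i hi hS => ?_⟩
  · split_ifs with h0
    · rw [← Nat.card_Ico, ← card_union_of_disjoint]
      · refine card_le_card fun i hi => ?_
        simp only [mem_union, mem_filter, mem_range, mem_Ico] at hi ⊢
        rcases hi with hi | hi
        · exact ⟨by omega, hi.2⟩
        · exact ⟨hi.2, (hk i hi.1 hi.2).trans h0⟩
      · refine disjoint_left.2 fun i hi hj => ?_
        simp only [mem_filter, mem_range, mem_Ico] at hi hj
        omega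
    · rw [add_zero]
      exact card_le_card (filter_subset_filter _ (range_subset_range.2 heS))
  · have := hk i hi hS
    rw [← this] at hv ⊢
    exact (h2 i hS hv).2

theorem lag_main (a x : ℤ) (v : ℕ → ℕ) (Q : ℕ) : ∀ (S N : ℕ) (c : Finset ℕ), c.card ≤ Q →
    (∀ i, i + 1 < S → i + 1 ∉ c → v (i + 1) = v i) →
    (∀ i < S, v i ≠ 0 → v i ≤ i ∧ par a x i = par a x (i - v i)) →
    ((range S).filter fun i => v i = 0).card ≤ N → grlzone_P a x (Q + 1) N S := by
  induction Q with
  | zero =>
    intro S N c hc h1 h2 h3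
    rw [Nat.le_zero, card_eq_zero] at hc
    subst hc
    exact lag_last (Nat.zero_le S) (by simpa using lag_pad a x 0)
      (fun i _ hi => h1 i hi (notMem_empty _)) h2 h3
  | succ Q ih =>
    intro S N c hc h1 h2 h3
    rcases (c.filter fun i => i < S).eq_empty_or_nonempty with h | h
    · refine lag_last (Nat.zero_le S) (by simpa using lag_pad a x (Q + 1))
        (fun i _ hi => h1 i hi fun hm => ?_) h2 h3
      have : i + 1 ∈ c.filter fun i => i < S := mem_filter.2 ⟨hm, hi⟩
      rw [h] at this
      exact notMem_empty _ this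
    · obtain ⟨e, he, hmax⟩ := exists_max_image _ id h
      obtain ⟨hec, heS⟩ := mem_filter.1 he
      refine lag_last heS.le (ih e _ (c.erase e) ?_ (fun i hi hm => h1 i (by omega) fun hm' => ?_)
        (fun i hi => h2 i (by omega)) le_rfl) (fun i hi hS => h1 i hS fun hm => ?_) h2 h3
      · rw [card_erase_of_mem hec]
        omega
      · exact hm (mem_erase.2 ⟨by omega, hm'⟩)
      · have := hmax (i + 1) (mem_filter.2 ⟨hm, hS⟩)
        simp only [id] at this
        omega

/-- Induction on `Q` for all `S`, `N`, `c`, with `grlzone_P`, `grlzone_zero`, `grlzone_app` of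
`GrLZOne`. Let `e` be the largest element of `c` below `S` (or `0`); `v` is constant on `[e, S)`;
parse `[0, e)` with `c.erase e` (for `e = 0` pad with empty pieces), with the count of zeros of `v`
below `e`, and append the piece `[e, S)` with lag `v e` (`0` if `e = S`). -/
theorem parse_of_lag (a x : ℤ) (Q S N : ℕ) (v : ℕ → ℕ) (c : Finset ℕ) (hc : c.card ≤ Q)
    (h1 : ∀ i, i + 1 < S → i + 1 ∉ c → v (i + 1) = v i)
    (h2 : ∀ i < S, v i ≠ 0 → v i ≤ i ∧ par a x i = par a x (i - v i))
    (h3 : ((range S).filter fun i => v i = 0).card ≤ N) :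
    ∃ s w : ℕ → ℕ, Parse a x (Q + 1) N s w ∧ s (Q + 1) = S :=
  lag_main a x v Q S N c hc h1 h2 h3

end Pool.Agent.Lib.MP_dee342_nt.Dc
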