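import Pool.Agent.Lib.MP_dee342_nt.Dc.Defs

/-! From lists to cut points. -/

set_option autoImplicit false

namespace Pool.Agent.Lib.MP_dee342_nt.Dc

open Finset Gr

theorem terras_shift {a : ℤ} (ha : Odd a) (y : ℤ) (i : ℕ) : ∀ j : ℕ, ∃ c : ℤ, Odd c ∧
    (T a)^[i] (y + 2 ^ (i + j)) = (T a)^[i] y + c * 2 ^ j := by
  induction i with
  | zero => exact fun j => ⟨1, odd_one, by simp⟩
  | succ i ih =>
    intro j
    obtain ⟨c, hc, e⟩ := ih (j + 1)
    rw [Function.iterate_succ_apply', Function.iterate_succ_apply',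
      show i + 1 + j = i + (j + 1) by omega, e,
      show c * 2 ^ (j + 1) = 2 * (c * 2 ^ j) by ring]
    generalize (T a)^[i] y = z
    by_cases hz : z % 2 = 0
    · have h1 := two_mul_T_even (a := a) hz
      have h2 := two_mul_T_even (a := a) (x := z + 2 * (c * 2 ^ j)) (by omega)
      exact ⟨c, hc, by omega⟩
    · have h1 := two_mul_T_odd ha hz
      have h2 := two_mul_T_odd ha (x := z + 2 * (c * 2 ^ j)) (by omega)
      exact ⟨a * c, ha.mul hc, by linarith⟩

/-- Induction on `L`: if `y` works for `L` and fails at `L`, use `y + 2^L`; indeed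
`T^i (y + 2^L) = T^i y + a^k 2^(L - i)` for `i ≤ L` and some `k` (induction on `i`,
`two_mul_T_even`, `two_mul_T_odd`). -/
theorem terras {a : ℕ} (ha : Odd a) (w : ℕ → ℤ) (L : ℕ) :
    ∃ y : ℤ, ∀ i < L, par a y i = w i % 2 := by
  have ha' : Odd (a : ℤ) := ha.natCast
  induction L with
  | zero => exact ⟨0, fun i hi => absurd hi (Nat.not_lt_zero i)⟩
  | succ L ih =>
    obtain ⟨y, hy⟩ := ih
    by_cases h : par a y L = w L % 2
    · refine ⟨y, fun i hi => ?_⟩
      rcases Nat.lt_succ_iff_lt_or_eq.1 hi with c | rfl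
      exacts [hy i c, h]
    · refine ⟨y + 2 ^ L, fun i hi => ?_⟩
      rcases Nat.lt_succ_iff_lt_or_eq.1 hi with c | rfl
      · obtain ⟨j, rfl⟩ := Nat.exists_eq_add_of_lt c
        obtain ⟨d, -, e⟩ := terras_shift ha' y i (j + 1)
        have h1 := hy i c
        unfold par at h1 ⊢
        rw [add_assoc i, e, show d * 2 ^ (j + 1) = 2 * (d * 2 ^ j) by ring]
        omega
      · obtain ⟨d, hd, e⟩ := terras_shift ha' y i 0
        have h1 := Int.odd_iff.1 hd
        unfold par at h ⊢
        rw [add_zero, pow_zero, mul_one] at e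
        rw [e]
        omega

theorem lists_get (p u r : List ℤ) {j : ℕ} (hj : j < u.length) :
    (p ++ u ++ r).getD (p.length + j) 0 = u.getD j 0 := by
  rw [List.append_assoc, List.getD_append_right _ _ _ _ (Nat.le_add_right _ _),
    Nat.add_sub_cancel_left, List.getD_append _ _ _ _ hj]

theorem lists_take (G : List (List ℤ)) (i : ℕ) :
    (G.take (i + 1)).flatten = (G.take i).flatten ++ G.getD i [] := by
  rw [List.take_add_one, List.flatten_append, List.getD_eq_getElem?_getD]
  cases G[i]? <;> simp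

theorem lists_mem (G : List (List ℤ)) (D : List ℤ) (h : ∀ u ∈ G, u <:+: D) (i : ℕ) :
    G.getD i [] <:+: D := by
  rcases lt_or_ge i G.length with hi | hi
  · rw [List.getD_eq_getElem _ _ hi]
    exact h _ (List.getElem_mem hi)
  · rw [List.getD_eq_default _ _ hi]
    exact List.nil_infix

/-- Choose the lists `F k`; `y` from `terras` with `w i = D.getD i 0`. For `m = k J + i`, `i < J`,
`k < R`, put `s m = k n + ((F k).take i).flatten.length` and `s m = R n` for `m ≥ R J` (for
example `s m = ∑ j < m, ((F (j / J)).getD (j % J) []).length` for `m ≤ R J` after setting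
`F k = []` for `k ≥ R`: monotone, and `s (k J) = k n`), and let `o m` be the length of a initial part in
front of the piece in `D` (`0` for an empty piece). `2 J` consecutive pieces contain a block. -/
theorem dict_of_lists {a : ℕ} (ha : Odd a) (x : ℤ) (D : List ℤ) (n J R L q : ℕ) (hJ : 1 ≤ J)
    (hL : D.length ≤ L) (hq : q ≤ R) (h : ∀ k < R, ∃ F : List (List ℤ), F.length ≤ J ∧
      (∀ u ∈ F, u <:+: D) ∧ F.flatten = List.ofFn (parWord a n ((T a)^[k * n] x))) :
    ∃ (y : ℤ) (s o : ℕ → ℕ), Dict a x y L n (2 * J) q s o ∧ s q ≤ R * n := by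
  choose! F h1 h2 h3 using h
  obtain ⟨y, hy⟩ := terras ha (fun i => D.getD i 0) L
  obtain ⟨P, hP⟩ : ∃ P : ℕ → List ℤ, ∀ m, P m = (F (m / J)).getD (m % J) [] := ⟨_, fun _ => rfl⟩
  obtain ⟨s, hs⟩ : ∃ s : ℕ → ℕ, ∀ m, s m = ∑ j ∈ range m, (P j).length := ⟨_, fun _ => rfl⟩
  have s1 : ∀ m, s (m + 1) = s m + (P m).length := fun m => by rw [hs, hs, sum_range_succ]
  have s2 : Monotone s := monotone_nat_of_le_succ fun m => by rw [s1]; omega
  have s3 : ∀ k i, i ≤ J → s (k * J + i) = s (k * J) + ((F k).take i).flatten.length := by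
    intro k i
    induction i with
    | zero => simp
    | succ i ih =>
      intro hi
      have e1 : (k * J + i) / J = k := by
        rw [mul_comm, Nat.mul_add_div hJ, Nat.div_eq_of_lt hi, add_zero]
      have e2 : (k * J + i) % J = i := by
        rw [mul_comm, Nat.mul_add_mod, Nat.mod_eq_of_lt hi]
      rw [← add_assoc, s1, ih (by omega), lists_take, List.length_append, hP, e1, e2, add_assoc]
  have s4 : ∀ k ≤ R, s (k * J) = k * n := by
    intro k
    induction k with
    | zero => simp [hs]
    | succ k ih =>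
      intro hk
      rw [add_mul, one_mul, s3 k J le_rfl, ih (by omega), List.take_of_length_le (h1 k hk),
        h3 k hk, List.length_ofFn, add_mul, one_mul]
  have ho : ∀ m, ∃ o : ℕ, m < q → ∃ p r : List ℤ, p ++ P m ++ r = D ∧ p.length = o := by
    intro m
    by_cases hm : m < q
    · have hk : m / J < R := lt_of_le_of_lt (Nat.div_le_self _ _) (by omega)
      obtain ⟨p, r, e⟩ := lists_mem (F (m / J)) D (h2 _ hk) (m % J)
      exact ⟨p.length, fun _ => ⟨p, r, by rw [hP, e], rfl⟩⟩
    · exact ⟨0, fun h => absurd h hm⟩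
  choose o ho using ho
  refine ⟨y, s, o, ⟨by simp [hs], s2, fun m hm => ?_, fun m hm => ?_⟩, ?_⟩
  · obtain ⟨p, r, e, e'⟩ := ho m hm
    have hk : m / J < R := lt_of_le_of_lt (Nat.div_le_self _ _) (by omega)
    have l1 : p.length + (P m).length ≤ L := by
      have := congrArg List.length e
      simp only [List.length_append] at this
      omega
    rw [s1, Nat.add_sub_cancel_left, ← e']
    refine ⟨l1, fun i hi => ?_⟩
    have b1 := hy (p.length + i) (by omega)
    have b2 := lists_get p (P m) r hi
    rw [e] at b2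
    have b3 : ((F (m / J)).take (m % J)).flatten ++ P m ++
        ((F (m / J)).drop (m % J + 1)).flatten = (F (m / J)).flatten := by
      rw [hP, ← lists_take, ← List.flatten_append, List.take_append_drop]
    have b4 := lists_get ((F (m / J)).take (m % J)).flatten (P m)
      ((F (m / J)).drop (m % J + 1)).flatten hi
    have b5 := congrArg List.length b3
    have b6 := s3 (m / J) (m % J) (Nat.mod_lt _ hJ).le
    rw [Nat.div_add_mod', s4 _ hk.le] at b6
    rw [h3 _ hk] at b5
    simp only [List.length_append, List.length_ofFn] at b5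
    rw [b3, h3 _ hk, List.getD_eq_getElem _ _ (by rw [List.length_ofFn]; omega),
      List.getElem_ofFn] at b4
    rw [b1, b2, ← b4, b6, par, parWord, Int.emod_emod_of_dvd _ (dvd_refl _),
      ← Function.iterate_add_apply, add_assoc, add_comm]
  · have c1 := Nat.div_add_mod' m J
    have c2 := Nat.mod_lt m hJ
    have c3 : m / J + 2 ≤ (m / J + 2) * J := Nat.le_mul_of_pos_right _ hJ
    have c4 : (m / J + 2) * J ≤ m + 2 * J := by rw [add_mul]; omega
    have c5 : m ≤ (m / J + 1) * J := by rw [add_mul]; omega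
    have c6 := s2 c4
    have c7 := s2 c5
    rw [s4 _ (by omega)] at c6 c7
    rw [add_mul] at c6 c7
    omega
  · rw [← s4 R le_rfl]
    exact s2 (hq.trans (Nat.le_mul_of_pos_right _ hJ))

end Pool.Agent.Lib.MP_dee342_nt.Dc
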