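import Pool.Agent.Lib.MP_dee342_nt.Dc.Defs

/-! After a small value there is a long piece; two such places collide. -/

set_option autoImplicit false

namespace Pool.Agent.Lib.MP_dee342_nt.Dc

open Finset Gr

/-- Let `k ≤ p'` with `s k ≤ i ≤ s (k+1)` (the greatest `k ≤ p'` with `s k ≤ i`), `κ = 3a + 2`,
`t 0 = i`, `t m = s (k + m)`. As long as the gaps `t (m+1) - t m` are `< 3 κ^m h`, we have
`|T^(t m) x| ≤ 2^(κ^m h)` (`grlzone_size` applied to `T^(t m) x`) and `t m ≤ i + 3 m κ^J h`. This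
cannot go on up to `m = J + 1`, as `s (k + 1 + J) ≥ s (k + 1) + n ≥ i + n`. At the first long gap
take `i' = t m`, `u = o (k + m) + (t m - s (k + m))`. -/
theorem long_piece {a : ℕ} (ha : Odd a) (ha3 : 3 ≤ a) {x y : ℤ} {L n J q : ℕ} {s o : ℕ → ℕ}
    (hD : Dict a x y L n J q s o) {i p' h : ℕ} (hi : i ≤ s p') (hq : p' + J + 1 ≤ q) (hh : 1 ≤ h)
    (hx : |(T a)^[i] x| ≤ 2 ^ h) (hn : 3 * (J + 1) * (3 * a + 2) ^ J * h < n) :
    ∃ m ≤ J, ∃ i' u, i ≤ i' ∧ i' + 3 * ((3 * a + 2) ^ m * h) ≤ s (p' + J + 1) ∧ u ≤ L ∧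
      |(T a)^[i'] x| ≤ 2 ^ ((3 * a + 2) ^ m * h) ∧
      ∀ j < 3 * ((3 * a + 2) ^ m * h), par a x (i' + j) = par a y (u + j) := by
  obtain ⟨h0, hmono, hpc, hfar⟩ := hD
  obtain ⟨k, hk, hk1, hk2⟩ : ∃ k ≤ p', s k ≤ i ∧ i ≤ s (k + 1) := by
    have h1 : s (Nat.findGreatest (fun k => s k ≤ i) p') ≤ i :=
      Nat.findGreatest_spec (P := fun k => s k ≤ i) (Nat.zero_le p') (by omega)
    have h2 := Nat.findGreatest_le (P := fun k => s k ≤ i) p'
    refine ⟨_, h2, h1, ?_⟩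
    rcases h2.eq_or_lt with h3 | h3
    · rw [h3]
      exact hi.trans (hmono (Nat.le_succ _))
    · exact (not_le.1 (Nat.findGreatest_is_greatest (P := fun k => s k ≤ i)
        (Nat.lt_succ_self _) h3)).le
  by_contra hc
  have key : ∀ m ≤ J + 1, ∃ t, s (k + m) ≤ t ∧ t ≤ s (k + m + 1) ∧ i ≤ t ∧
      t ≤ i + 3 * m * ((3 * a + 2) ^ J * h) ∧ |(T a)^[t] x| ≤ 2 ^ ((3 * a + 2) ^ m * h) := by
    intro m
    induction m with
    | zero => exact fun _ => ⟨i, hk1, hk2, le_rfl, by omega, by simpa using hx⟩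
    | succ m ih =>
      intro hm
      obtain ⟨t, t1, t2, t3, t4, t5⟩ := ih (by omega)
      have hH : (3 * a + 2) ^ m * h ≤ (3 * a + 2) ^ J * h :=
        Nat.mul_le_mul_right _ (Nat.pow_le_pow_right (by omega) (by omega))
      have hH1 : 1 ≤ (3 * a + 2) ^ m * h := Nat.mul_pos (by positivity) hh
      have e : (3 * a + 2) ^ (m + 1) * h = (3 * a + 2) * ((3 * a + 2) ^ m * h) := by ring
      rw [e]
      obtain ⟨p1, p2⟩ := hpc (k + m) (by omega)
      by_cases hl : t + 3 * ((3 * a + 2) ^ m * h) ≤ s (k + m + 1)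
      · refine absurd ⟨m, by omega, t, o (k + m) + (t - s (k + m)), t3,
          hl.trans (hmono (by omega)), by omega, t5, fun j hj => ?_⟩ hc
        have h1 := p2 (t - s (k + m) + j) (by omega)
        rw [show s (k + m) + (t - s (k + m) + j) = t + j by omega, ← add_assoc] at h1
        exact h1
      · generalize (3 * a + 2) ^ m * h = H at hH hH1 t5 hl ⊢
        refine ⟨s (k + m + 1), le_rfl, hmono (by omega), by omega, ?_, ?_⟩
        · have e2 : 3 * (m + 1) * ((3 * a + 2) ^ J * h) =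
              3 * m * ((3 * a + 2) ^ J * h) + 3 * ((3 * a + 2) ^ J * h) := by ring
          omega
        · have h1 := grlzone_size a ha ha3 H _ t5 (s (k + m + 1) - t) (3 * H) (by omega)
          rw [← Function.iterate_add_apply, Nat.sub_add_cancel t2] at h1
          refine h1.trans (pow_le_pow_right₀ (by norm_num) ?_)
          have e3 : (3 * a + 2) * H = a * (3 * H) + 2 * H := by ring
          omega
  obtain ⟨t, t1, -, -, t4, -⟩ := key (J + 1) le_rfl
  have h1 := hfar (k + 1) (by omega)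
  rw [show k + 1 + J = k + (J + 1) by omega] at h1
  rw [mul_assoc (3 * (J + 1))] at hn
  omega

theorem collide_eq {a : ℕ} (ha : Odd a) (ha3 : 3 ≤ a) {z z' : ℤ} {H d e e' : ℕ}
    (hd : (a + 1) * d + 3 ≤ 2 * H) (he : e ≤ d) (he' : e' ≤ d) (h1 : |z| ≤ 2 ^ H)
    (h2 : |z'| ≤ 2 ^ H) (w : ∀ j, j + d < 3 * H → par a z (e + j) = par a z' (e' + j)) :
    (T a)^[e] z = (T a)^[e'] z' := by
  have k1 := grlzone_size a ha ha3 H z h1 e d he
  have k2 := grlzone_size a ha ha3 H z' h2 e' d he'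
  have k3 := sep (a := a) (by exact_mod_cast ha) (H + 1 + a * d + 2) ((T a)^[e] z)
    ((T a)^[e'] z') fun j hj => by
      have := w j (by rw [add_mul] at hd; omega)
      unfold par at this
      rwa [add_comm e, add_comm e', Function.iterate_add_apply, Function.iterate_add_apply] at this
  refine sub_eq_zero.1 (Int.eq_zero_of_abs_lt_dvd k3 ((abs_sub _ _).trans_lt ?_))
  have k4 : (0 : ℤ) < 2 ^ (H + 1 + a * d) := by positivity
  rw [pow_add _ _ 2]
  linarith

/-- If `u₂ = u₁ + δ` compare the times `i₁ + δ` and `i₂`, if `u₁ = u₂ + δ` the times `i₁` and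
`i₂ + δ`. Both values are at most `2^(H + 1 + a d)` (`grlzone_size`) and their parity words agree
on `3 H - d ≥ H + 1 + a d + 2` letters, so they are equal (`sep`, `Int.eq_zero_of_abs_lt_dvd`). -/
theorem collide {a : ℕ} (ha : Odd a) (ha3 : 3 ≤ a) {x y : ℤ} {H d i₁ i₂ u₁ u₂ : ℕ}
    (hd : (a + 1) * d + 3 ≤ 2 * H) (hi : i₁ + d < i₂) (hu : Cl d u₁ u₂)
    (h1 : |(T a)^[i₁] x| ≤ 2 ^ H) (h2 : |(T a)^[i₂] x| ≤ 2 ^ H)
    (w1 : ∀ j < 3 * H, par a x (i₁ + j) = par a y (u₁ + j))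
    (w2 : ∀ j < 3 * H, par a x (i₂ + j) = par a y (u₂ + j)) :
    ∃ i j, i < j ∧ j ≤ i₂ + 3 * H ∧ (T a)^[i] x = (T a)^[j] x := by
  have hp : ∀ i j, par a ((T a)^[i] x) j = par a x (i + j) := fun i j => by
    unfold par
    rw [add_comm i, Function.iterate_add_apply]
  have hH : d ≤ 3 * H := by
    rw [add_mul] at hd
    omega
  obtain ⟨hu1, hu2⟩ := hu
  rcases le_total u₁ u₂ with h | h
  · obtain ⟨δ, rfl⟩ := Nat.exists_eq_add_of_le h
    have k := collide_eq ha ha3 hd (show δ ≤ d by omega) (Nat.zero_le d) h1 h2 fun j hj => by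
      rw [hp, hp, w1 _ (by omega), w2 _ (by omega), zero_add, add_assoc]
    rw [← Function.iterate_add_apply, ← Function.iterate_add_apply] at k
    exact ⟨_, _, by omega, by omega, k⟩
  · obtain ⟨δ, rfl⟩ := Nat.exists_eq_add_of_le h
    have k := collide_eq ha ha3 hd (Nat.zero_le d) (show δ ≤ d by omega) h1 h2 fun j hj => by
      rw [hp, hp, w1 _ (by omega), w2 _ (by omega), zero_add, add_assoc]
    rw [← Function.iterate_add_apply, ← Function.iterate_add_apply] at k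
    exact ⟨_, _, by omega, by omega, k⟩

end Pool.Agent.Lib.MP_dee342_nt.Dc
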