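import Pool.Agent.Lib.MP_dee342_nt.Dc.Win
import Pool.Agent.Lib.MP_dee342_nt.Dc.Lists
import Pool.Agent.Lib.MP_dee342_nt.LocCx

/-! The dictionary theorem for orbits and for cycles. -/

set_option autoImplicit false

namespace Pool.Agent.Lib.MP_dee342_nt.Dc

open Finset Gr

theorem window_lists (a : ℕ) (ha : Odd a) (ha3 : 3 ≤ a) (C J : ℕ) : ∃ R n₀ : ℕ, ∀ n ≥ n₀,
    ∀ (x : ℤ) (D : List ℤ), |x| ≤ 2 ^ (C * n) → D.length ≤ C * n →
      (∀ k < R, ∃ F : List (List ℤ), F.length ≤ J ∧ (∀ u ∈ F, u <:+: D) ∧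
        F.flatten = List.ofFn (parWord a n ((T a)^[k * n] x))) →
      ∃ i j, i < j ∧ j ≤ R * n ∧ (T a)^[i] x = (T a)^[j] x := by
  obtain ⟨q, n₀, h⟩ := dict_window a ha ha3 (C + 1) (2 * (J + 1)) (by omega)
  refine ⟨q, n₀, fun n hn x D hx hD hF => ?_⟩
  have h1 : C * n ≤ (C + 1) * n := Nat.mul_le_mul_right _ (by omega)
  obtain ⟨y, s, o, h2, h3⟩ := dict_of_lists ha x D n (J + 1) q _ q (by omega) (hD.trans h1) le_rfl
    fun k hk => (hF k hk).imp fun F hF => ⟨hF.1.trans (by omega), hF.2⟩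
  obtain ⟨i, j, h4, h5, h6⟩ := h n hn x y s o (hx.trans (pow_le_pow_right₀ one_le_two h1)) h2
  exact ⟨i, j, h4, h5.trans h3, h6⟩

/-- Copy the proof of `Gr.superlinear_local` (`LocCx`) with `window_lists` in place of
`superlinear_window` (`R + 1` blocks are given, the first `R` are used, `R n < p`). -/
theorem dict_cycles (a : ℕ) (ha : a = 3 ∨ a = 5) (J : ℕ) (C η : ℝ) (hη : 0 < η) :
    ∃ R : ℕ, {x : ℤ | x ∈ Function.periodicPts (T a) ∧ ∃ (n : ℕ) (D : List ℤ),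
      η * Real.log (Function.minimalPeriod (T a) x) ≤ n ∧
      (∀ i, |(x : ℝ)| ≤ Real.exp (n / η) * |(((T a)^[i] x : ℤ) : ℝ)|) ∧
      R * n ≤ Function.minimalPeriod (T a) x ∧ (D.length : ℝ) ≤ C * n ∧
      ∀ k < R, ∃ F : List (List ℤ), F.length ≤ J ∧ (∀ u ∈ F, u <:+: D) ∧
        F.flatten = List.ofFn (parWord a n ((T a)^[k * n] x))}.Finite := by
  obtain ⟨μ, hμ⟩ : ∃ μ, LogMeasure a μ := by
    rcases ha with rfl | rfl
    exacts [⟨_, logMeasure_three⟩, ⟨_, logMeasure_five⟩]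
  have ho : Odd a := by rcases ha with rfl | rfl <;> decide
  have ha3 : 3 ≤ a := by omega
  obtain ⟨C₀, hC₀, hmin⟩ := min_poly a μ ho ha3 hμ
  obtain ⟨C₁, hC₁⟩ := exists_nat_ge (max C (((μ + 1) / η + C₀) / Real.log 2))
  obtain ⟨C₂, hC₂⟩ := exists_nat_ge (1 / η / Real.log 2)
  obtain ⟨C', hC'⟩ : ∃ C', C' = C₂ + C₁ := ⟨_, rfl⟩
  obtain ⟨R, n₀, hw⟩ := window_lists a ho ha3 C' J
  refine ⟨R + 1, (finite_of_abs_le (2 ^ (C' * (n₀ + 1)))).subset ?_⟩
  rintro x ⟨hx, n, D, hn0, hn1, hn2, hn3, hF⟩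
  set p := Function.minimalPeriod (T a) x with hp
  have hp0 : 0 < p := Function.minimalPeriod_pos_of_mem_periodicPts hx
  have hb : ∀ n', n ≤ n' → 1 ≤ n' → |(x : ℝ)| ≤ 2 ^ (C' * n') := fun n' h1 h2 => by
    have h3 : (n : ℝ) ≤ n' := by exact_mod_cast h1
    have h4 := (hmin x p hp0 (Function.isPeriodicPt_minimalPeriod _ _)
      (|(x : ℝ)| / Real.exp (n / η)) fun i _ => (div_le_iff₀' (Real.exp_pos _)).2 (hn1 i)).trans
      (cxmain_pow_le hη hC₀ h2 hp0 (hn0.trans h3) ((le_max_right _ _).trans hC₁))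
    have h5 : Real.exp (n / η) ≤ 2 ^ (C₂ * n') := by
      have b1 := (div_le_iff₀ (Real.log_pos one_lt_two)).1 hC₂
      have b2 : (n : ℝ) / η ≤ ((C₂ * n' : ℕ) : ℝ) * Real.log 2 := by
        have b3 := mul_le_mul b1 h3 (Nat.cast_nonneg n) ((by positivity : (0 : ℝ) ≤ 1 / η).trans b1)
        push_cast
        calc (n : ℝ) / η = 1 / η * n := by ring
          _ ≤ _ := b3.trans_eq (by ring)
      have b4 := Real.exp_le_exp.2 b2
      rwa [Real.exp_nat_mul, Real.exp_log two_pos] at b4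
    rw [div_le_iff₀' (Real.exp_pos _)] at h4
    rw [hC', add_mul, pow_add]
    exact h4.trans (mul_le_mul_of_nonneg_right h5 (by positivity))
  rcases le_or_gt n (n₀ + 1) with hn | hn
  · exact hb _ hn (by omega)
  exfalso
  have h5 : |x| ≤ 2 ^ (C' * n) := by exact_mod_cast hb n le_rfl (by omega)
  have h7 : R * n < p := by
    rw [add_mul] at hn2
    omega
  have h11 : C ≤ C' := ((le_max_left _ _).trans hC₁).trans (by exact_mod_cast (by omega))
  have h10 : D.length ≤ C' * n := by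
    exact_mod_cast hn3.trans (mul_le_mul_of_nonneg_right h11 (show (0 : ℝ) ≤ n by positivity))
  obtain ⟨i, j, hij, hj, h⟩ := hw n (by omega) x D h5 h10 fun k hk => hF k (by omega)
  exact hij.ne
    (Function.iterate_injOn_Iio_minimalPeriod (hij.trans (hj.trans_lt h7)) (hj.trans_lt h7) h)

end Pool.Agent.Lib.MP_dee342_nt.Dc
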