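import Pool.Agent.Lib.MP_dee342_nt.Dc.Grow

/-! Parses with dictionary pieces and copies of earlier letters. -/

set_option autoImplicit false

namespace Pool.Agent.Lib.MP_dee342_nt.Dc

open Finset Gr

/-- Piece `k < m` is read in the word of `y` if `v k = 0` and is a copy with lag `v k` otherwise. -/
def Mixed (a : ℕ) (x y : ℤ) (L m : ℕ) (s o v : ℕ → ℕ) : Prop :=
  s 0 = 0 ∧ Monotone s ∧ ∀ k < m, (v k = 0 → o k + (s (k + 1) - s k) ≤ L ∧
    ∀ i < s (k + 1) - s k, par a x (s k + i) = par a y (o k + i)) ∧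
    (v k ≠ 0 → v k ≤ s k ∧ ∀ i, s k ≤ i → i < s (k + 1) → par a x i = par a x (i - v k))

/-- Twin: `lag_of_dict` in `Grow`. Put `π i = o k + (i - s k) < L` if the piece `k = K i` has
`v k = 0`, and `π i = L + i` otherwise; `f i` is the least `j` with `π j = π i` (it lies in a piece
with `v = 0` when `i` does, as then `π < L`), and `w i = i - f i` if `v (K i) = 0`, `w i = v (K i)`
otherwise. The same set `c` works. -/
theorem lag_of_mixed {a : ℕ} {x y : ℤ} {L m : ℕ} {s o v : ℕ → ℕ} (hD : Mixed a x y L m s o v) :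
    ∃ (w : ℕ → ℕ) (c : Finset ℕ), c.card ≤ m + 2 * (m * m) ∧
      (∀ i, i + 1 < s m → i + 1 ∉ c → w (i + 1) = w i) ∧
      (∀ i < s m, w i ≠ 0 → w i ≤ i ∧ par a x i = par a x (i - w i)) ∧
      ((range (s m)).filter fun i => w i = 0).card ≤ L := by
  classical
  obtain ⟨h0, hm, hw⟩ := hD
  choose! K k1 k2 k3 using grow_piece h0 m
  have hU : ∀ i k, i < s m → s k ≤ i → i < s (k + 1) → K i = k := fun i k hi h1 h2 => by
    have h3 := k2 i hi
    have h4 := k3 i hi
    rcases lt_trichotomy (K i) k with h | h | h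
    · have := hm (show K i + 1 ≤ k from h)
      omega
    · exact h
    · have := hm (show k + 1 ≤ K i from h)
      omega
  obtain ⟨π, hπ⟩ : ∃ π : ℕ → ℕ, ∀ i, π i = o (K i) + (i - s (K i)) := ⟨_, fun _ => rfl⟩
  have ex : ∀ i, ∃ j, π j = π i ∧ (v (K j) = 0 ↔ v (K i) = 0) := fun i => ⟨i, rfl, Iff.rfl⟩
  obtain ⟨f, f1, f0, f2⟩ : ∃ f : ℕ → ℕ, (∀ i, π (f i) = π i) ∧
      (∀ i, v (K (f i)) = 0 ↔ v (K i) = 0) ∧
      ∀ i j, π j = π i → (v (K j) = 0 ↔ v (K i) = 0) → f i ≤ j :=
    ⟨fun i => Nat.find (ex i), fun i => (Nat.find_spec (ex i)).1,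
      fun i => (Nat.find_spec (ex i)).2, fun i _ h h' => Nat.find_min' (ex i) ⟨h, h'⟩⟩
  have f3 : ∀ i, f i ≤ i := fun i => f2 i i rfl Iff.rfl
  have hpar : ∀ i < s m, v (K i) = 0 → par a x i = par a y (π i) := fun i hi hv => by
    have h1 := k2 i hi
    have h2 := k3 i hi
    have h3 := ((hw _ (k1 i hi)).1 hv).2 (i - s (K i)) (by omega)
    rwa [Nat.add_sub_cancel' h1, ← hπ] at h3
  refine ⟨fun i => if v (K i) = 0 then i - f i else v (K i), (range m).image s ∪
    ((range m ×ˢ range m).image (fun p => s p.1 + (o p.2 - o p.1)) ∪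
      (range m ×ˢ range m).image fun p => s p.1 + (o p.2 + (s (p.2 + 1) - s p.2) - o p.1)),
    ?_, fun i hi hc => ?_, fun i hi _ => ?_, ?_⟩
  · refine (card_union_le _ _).trans (add_le_add (card_image_le.trans (card_range m).le)
      ((card_union_le _ _).trans ((add_le_add card_image_le card_image_le).trans (le_of_eq ?_))))
    rw [card_product, card_range, two_mul]
  · simp only [mem_union, mem_image, mem_product, mem_range, not_or, not_exists, not_and,
      Prod.forall, and_imp] at hc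
    obtain ⟨c1, c2, c3⟩ := hc
    have a1 := k1 _ hi
    have a2 := k2 _ hi
    have a3 := k3 _ hi
    have a4 := c1 _ a1
    have a5 : K i = K (i + 1) := hU i _ (by omega) (by omega) (by omega)
    have a6 := hπ i
    have a7 := hπ (i + 1)
    rw [a5] at a6
    have b0 := f3 i
    have b0' := f3 (i + 1)
    have b1 : f (i + 1) ≤ f i + 1 := by
      have d0 : f i < s m := by omega
      have d1 := k2 _ d0
      have d2 := k3 _ d0
      have d3 := c3 _ _ a1 (k1 _ d0)
      have d4 := hπ (f i)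
      have d5 := f1 i
      have d6 : K (f i + 1) = K (f i) := hU _ _ (by omega) (by omega) (by omega)
      have d7 := hπ (f i + 1)
      rw [d6] at d7
      exact f2 _ _ (by omega) (by rw [d6, f0, a5])
    have b2 : f i + 1 ≤ f (i + 1) := by
      have d0 : f (i + 1) < s m := by omega
      have d1 := k2 _ d0
      have d2 := k3 _ d0
      have d3 := c2 _ _ a1 (k1 _ d0)
      have d4 := hπ (f (i + 1))
      have d5 := f1 (i + 1)
      have d8 : s (K (f (i + 1))) < f (i + 1) := by omega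
      have d6 : K (f (i + 1) - 1) = K (f (i + 1)) := hU _ _ (by omega) (by omega) (by omega)
      have d7 := hπ (f (i + 1) - 1)
      rw [d6] at d7
      have d9 := f2 i (f (i + 1) - 1) (by omega) (by rw [d6, f0, a5])
      omega
    simp only [a5]
    split_ifs
    · omega
    · rfl
  · by_cases hv : v (K i) = 0
    · simp only [if_pos hv]
      refine ⟨Nat.sub_le _ _, ?_⟩
      rw [Nat.sub_sub_self (f3 i), hpar i hi hv, hpar _ ((f3 i).trans_lt hi) ((f0 i).2 hv), f1]
    · simp only [if_neg hv]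
      have h1 := (hw _ (k1 i hi)).2 hv
      exact ⟨h1.1.trans (k2 i hi), h1.2 i (k2 i hi) (k3 i hi)⟩
  · have hz : ∀ i, (if v (K i) = 0 then i - f i else v (K i)) = 0 → v (K i) = 0 ∧ i - f i = 0 :=
      fun i h => by
        split_ifs at h with hv
        exacts [⟨hv, h⟩, (hv h).elim]
    rw [← card_range L]
    refine card_le_card_of_injOn π (fun i hi => ?_) fun i hi j hj e => ?_
    · have h1 := mem_range.1 (mem_filter.1 (mem_coe.1 hi)).1
      have h2 := k2 i h1
      have h3 := k3 i h1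
      have h4 := ((hw _ (k1 i h1)).1 (hz i (mem_filter.1 (mem_coe.1 hi)).2).1).1
      have h5 := hπ i
      exact mem_coe.2 (mem_range.2 (by omega))
    · have h1 := hz i (mem_filter.1 (mem_coe.1 hi)).2
      have h2 := hz j (mem_filter.1 (mem_coe.1 hj)).2
      have h3 := f2 i j e.symm (iff_of_true h2.1 h1.1)
      have h4 := f2 j i e (iff_of_true h1.1 h2.1)
      omega

theorem growth_mixed (a : ℕ) (ha : Odd a) (ha3 : 3 ≤ a) : ∃ c : ℕ, ∀ m A : ℕ, ∃ N₀ : ℕ, ∀ N ≥ N₀,
    ∀ (x y : ℤ) (s o v : ℕ → ℕ) (S : ℕ), |x| ≤ 2 ^ N → Mixed a x y N m s o v → S ≤ s m →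
      S ≤ A * N → ∀ i, i + c * N ≤ S → |(T a)^[i] x| ≤ 2 ^ (c * N) := by
  obtain ⟨c, hc⟩ := growth a ha ha3
  refine ⟨c, fun m A => ?_⟩
  obtain ⟨N₀, h⟩ := hc (m + 2 * (m * m) + 1) A
  refine ⟨N₀, fun N hN x y s o v S hx hD h4 h5 i hi => ?_⟩
  obtain ⟨w, e, h0, h1, h2, h3⟩ := lag_of_mixed hD
  obtain ⟨s', w', hP, hs⟩ := parse_of_lag a x _ S N w e h0 (fun i hi => h1 i (by omega))
    (fun i hi => h2 i (by omega))
    ((card_le_card (filter_subset_filter _ (range_subset_range.2 h4))).trans h3)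
  exact h N hN x s' w' hx hP (hs ▸ h5) i (hs ▸ hi)

end Pool.Agent.Lib.MP_dee342_nt.Dc
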