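import Pool.Agent.Lib.MP_dee342_nt.Dc.Main

/-! Low factor complexity gives a short dictionary. -/

set_option autoImplicit false

namespace Pool.Agent.Lib.MP_dee342_nt.Dc

open Finset Gr

theorem old_anchor (w : ℕ → Bool) (L m : ℕ) : ∃ S : Finset ℕ, S.card ≤ 2 * (spF w L m).card + 1 ∧
    ∀ i < L, ∃ α ∈ S, ∃ j < cnt w L m, fac w i m = fac w (α + j) m := by
  classical
  set G : (Fin m → Bool) × Bool → ℕ := fun e => sInf {i | fac w i m = e.1 ∧ w (i + m) = e.2} with hG
  refine ⟨insert 0 ((spF w L m ×ˢ univ).image fun e => G e + 1), ?_, ?_⟩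
  · refine (card_insert_le _ _).trans (Nat.succ_le_succ (card_image_le.trans ?_))
    rw [card_product, card_univ, Fintype.card_bool, mul_comm]
  have key : ∀ i < L, ∃ α ∈ insert 0 ((spF w L m ×ˢ univ).image fun e => G e + 1), ∃ j,
      α + j ≤ i ∧ fac w i m = fac w (α + j) m ∧
      ∀ k l, k < l → l ≤ j → fac w (α + k) m ≠ fac w (α + l) m := by
    intro i
    induction i with
    | zero => exact fun _ => ⟨0, mem_insert_self _ _, 0, le_rfl, rfl, fun k l h1 h2 => by omega⟩
    | succ i ih =>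
      intro hi
      by_cases hs : Spec w L m i
      · have h1 : i ∈ {i' | fac w i' m = fac w i m ∧ w (i' + m) = w (i + m)} := ⟨rfl, rfl⟩
        have h2 := Nat.sInf_mem ⟨i, h1⟩
        refine ⟨G (fac w i m, w (i + m)) + 1, mem_insert_of_mem (mem_image_of_mem _
          (mem_product.2 ⟨mem_image_of_mem _ (mem_filter.2 ⟨mem_range.2 (by omega), hs⟩),
            mem_univ _⟩)), 0, Nat.succ_le_succ (Nat.sInf_le h1), fac_succ h2.1.symm h2.2.symm,
          fun k l h1 h2 => by omega⟩
      · obtain ⟨α, h1, j, h2, h3, h4⟩ := ih (by omega)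
        have h5 := fac_succ h3 (next_eq (by omega) h3 hs)
        by_cases h6 : ∃ k ≤ j, fac w (α + k) m = fac w (α + j + 1) m
        · obtain ⟨k, h7, h8⟩ := h6
          exact ⟨α, h1, k, by omega, h5.trans h8.symm, fun k' l h9 h10 => h4 k' l h9 (by omega)⟩
        · refine ⟨α, h1, j + 1, by omega, h5, fun k l h7 h8 h9 => ?_⟩
          rcases h8.eq_or_lt with rfl | h8
          · exact h6 ⟨k, by omega, h9⟩
          · exact h4 k l h7 (by omega) h9
  intro i hi
  obtain ⟨α, h1, j, h2, h3, h4⟩ := key i hi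
  refine ⟨α, h1, j, ?_, h3⟩
  have h5 := card_le_card_of_injOn (s := range (j + 1))
    (t := (range L).image fun i => fac w i m) (fun k => fac w (α + k) m)
    (fun k hk => mem_coe.2 (mem_image_of_mem _ (mem_range.2 (by
      have := mem_range.1 (mem_coe.1 hk); omega)))) (fun k hk l hl h => by
      have h6 := mem_range.1 (mem_coe.1 hk)
      have h7 := mem_range.1 (mem_coe.1 hl)
      rcases lt_trichotomy k l with h8 | h8 | h8
      · exact absurd h (h4 k l h8 (by omega))
      · exact h8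
      · exact absurd h.symm (h4 l k h8 (by omega)))
  rwa [card_range] at h5

/-- If there are at most `C n` factors of length `n`, then for some `m` between `n / 2` and `n`
all factors of length `m` occur in one word of length `O(C² m)`. -/
theorem old_dict (a x : ℤ) (L n C : ℕ) (hn : 6 ≤ n) (h : factors a x L n ≤ C * n) :
    ∃ (m : ℕ) (D : List ℤ), n ≤ 2 * m ∧ m < n ∧ D.length ≤ (6 * C + 1) * (2 * C + 1) * m ∧
      ∀ i < L, List.ofFn (parWord a m ((T a)^[i] x)) <:+: D := by
  obtain ⟨m, h1, h2, h3, h4⟩ := exists_scale L n C hn ((cnt_le_factors a x le_rfl n).trans h)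
  obtain ⟨S, h5, h6⟩ := old_anchor (wd a x) L m
  refine ⟨m, (S.toList.map fun α => (List.range' 0 ((2 * C + 1) * m)).map
    fun k => par a x (α + k)).flatten, h1, h2, ?_, fun i hi => ?_⟩
  · rw [List.length_flatten, List.map_map, mul_assoc]
    refine (List.sum_le_card_nsmul _ ((2 * C + 1) * m) fun y hy => ?_).trans ?_
    · obtain ⟨α, -, rfl⟩ := List.mem_map.1 hy
      simp
    · rw [List.length_map, length_toList, smul_eq_mul]
      exact Nat.mul_le_mul_right _ (by omega)
  · obtain ⟨α, h7, j, h8, h9⟩ := h6 i hi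
    refine List.IsInfix.trans ?_ (List.infix_of_mem_flatten
      (List.mem_map_of_mem (mem_toList.2 h7)))
    have e1 : List.ofFn (parWord a m ((T a)^[i] x)) =
        (List.range' j m).map fun k => par a x (α + k) := by
      refine List.ext_getElem (by simp) fun k h10 h11 => ?_
      have h12 : k < m := by simpa using h10
      have h13 := (wd_eq_iff a x x _ _).1 (congrFun h9 ⟨k, h12⟩)
      simp only [List.getElem_ofFn, List.getElem_map, List.getElem_range', one_mul, parWord]
      rw [← Function.iterate_add_apply, add_comm k, ← add_assoc]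
      exact h13
    have h10 : C * n ≤ C * (2 * m) := Nat.mul_le_mul_left C h1
    obtain ⟨t, ht⟩ : ∃ t, (2 * C + 1) * m = j + m + t :=
      Nat.exists_eq_add_of_le (by nlinarith)
    rw [e1, ht]
    refine List.IsInfix.map _ ⟨List.range' 0 j, List.range' (j + m) t, ?_⟩
    rw [← List.range'_append_1, ← List.range'_append_1, zero_add, zero_add]

/-- The dictionary theorem with one piece for each block contains the complexity theorem. -/
theorem old_of_new (a : ℤ) (H : ∀ (C η : ℝ), 0 < η →
    ∃ R : ℕ, {x : ℤ | x ∈ Function.periodicPts (T a) ∧ ∃ (n : ℕ) (D : List ℤ),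
      η * Real.log (Function.minimalPeriod (T a) x) ≤ n ∧
      (∀ i, |(x : ℝ)| ≤ Real.exp (n / η) * |(((T a)^[i] x : ℤ) : ℝ)|) ∧
      R * n ≤ Function.minimalPeriod (T a) x ∧ (D.length : ℝ) ≤ C * n ∧
      ∀ k < R, ∃ F : List (List ℤ), F.length ≤ 1 ∧ (∀ u ∈ F, u <:+: D) ∧
        F.flatten = List.ofFn (parWord a n ((T a)^[k * n] x))}.Finite) (C η : ℝ) (hη : 0 < η) :
    ∃ R : ℕ, {x : ℤ | x ∈ Function.periodicPts (T a) ∧ ∃ n : ℕ,
      η * Real.log (Function.minimalPeriod (T a) x) ≤ n ∧
      (∀ i, |(x : ℝ)| ≤ Real.exp (n / η) * |(((T a)^[i] x : ℤ) : ℝ)|) ∧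
      R * n ≤ Function.minimalPeriod (T a) x ∧ (factors a x (R * n) n : ℝ) ≤ C * n}.Finite := by
  obtain ⟨c, hc⟩ := exists_nat_ge C
  obtain ⟨R, hR⟩ := H (((6 * c + 1) * (2 * c + 1) : ℕ) : ℝ) (η / 2) (by positivity)
  obtain ⟨Q, hQ⟩ := exists_nat_gt (Real.exp (6 / η))
  refine ⟨max R Q, hR.subset ?_⟩
  rintro x ⟨h1, n, h2, h3, h4, h5⟩
  refine ⟨h1, ?_⟩
  have hl := Real.log_natCast_nonneg (Function.minimalPeriod (T a) x)
  rcases Nat.eq_zero_or_pos n with rfl | hn
  · have h6 := mul_nonneg hη.le hl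
    rw [Nat.cast_zero] at h2
    exact ⟨0, [], by rw [Nat.cast_zero]; linarith, by simpa using h3, by simp, by simp,
      fun k _ => ⟨[], by simp, by simp, by simp⟩⟩
  by_cases h6 : n < 6
  · exfalso
    have h7 : Q ≤ Function.minimalPeriod (T a) x :=
      ((le_max_right R Q).trans (Nat.le_mul_of_pos_right _ hn)).trans h4
    have h8 : Real.exp (6 / η) < (Function.minimalPeriod (T a) x : ℝ) :=
      hQ.trans_le (by exact_mod_cast h7)
    have h9 := (Real.lt_log_iff_exp_lt ((Real.exp_pos _).trans h8)).2 h8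
    rw [div_lt_iff₀ hη] at h9
    have h10 : (n : ℝ) < 6 := by exact_mod_cast h6
    linarith
  have h7 : factors a x (max R Q * n) n ≤ c * n := by
    exact_mod_cast h5.trans (mul_le_mul_of_nonneg_right hc (Nat.cast_nonneg n))
  obtain ⟨m, D, h8, h9, h10, h11⟩ := old_dict a x _ n c (by omega) h7
  have h12 : (n : ℝ) ≤ 2 * m := by exact_mod_cast h8
  have h13 : R * n ≤ max R Q * n := Nat.mul_le_mul_right _ (le_max_left _ _)
  refine ⟨m, D, by linarith, fun i => (h3 i).trans ?_,
    (Nat.mul_le_mul_left R h9.le).trans (h13.trans h4), by exact_mod_cast h10,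
    fun k hk => ⟨[List.ofFn (parWord a m ((T a)^[k * m] x))], le_rfl, fun u hu => ?_, by simp⟩⟩
  · refine mul_le_mul_of_nonneg_right (Real.exp_le_exp.2 ?_) (abs_nonneg _)
    rw [div_div_eq_mul_div]
    exact div_le_div_of_nonneg_right (by linarith) hη.le
  · rw [List.mem_singleton.1 hu]
    exact h11 _ (((Nat.mul_le_mul_left k h9.le).trans_lt
      (Nat.mul_lt_mul_of_pos_right hk hn)).trans_le h13)

end Pool.Agent.Lib.MP_dee342_nt.Dc
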