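import Pool.Agent.Lib.MP_dee342_nt.Dc.MixWin
import Pool.Agent.Lib.MP_dee342_nt.Dc.Old

/-! The theorem for cycles. -/

set_option autoImplicit false

namespace Pool.Agent.Lib.MP_dee342_nt.Dc

open Finset Gr

/-- `y` from `terras` with `w i = D.getD i 0`; for `v k = 0`, `k < m`, let `o k` be the length of
the part of `D` in front of the piece (`lists_get` in `Lists`, `List.getElem_ofFn`, `par_shift`). -/
theorem mixed_of_lists {a : ℕ} (ha : Odd a) (x : ℤ) (D : List ℤ) (L m : ℕ) (s v : ℕ → ℕ)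
    (hL : D.length ≤ L) (h0 : s 0 = 0) (hs : Monotone s)
    (h : ∀ k < m, (v k = 0 → List.ofFn (parWord a (s (k + 1) - s k) ((T a)^[s k] x)) <:+: D) ∧
      (v k ≠ 0 → v k ≤ s k ∧ ∀ i, s k ≤ i → i < s (k + 1) →
        (T a)^[i] x % 2 = (T a)^[i - v k] x % 2)) :
    ∃ (y : ℤ) (o : ℕ → ℕ), Mixed a x y L m s o v := by
  obtain ⟨y, hy⟩ := terras ha (fun i => D.getD i 0) L
  have ho : ∀ k, ∃ o : ℕ, k < m → v k = 0 → ∃ p r : List ℤ,
      p ++ List.ofFn (parWord a (s (k + 1) - s k) ((T a)^[s k] x)) ++ r = D ∧ p.length = o := by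
    intro k
    by_cases hk : k < m ∧ v k = 0
    · obtain ⟨p, r, e⟩ := (h k hk.1).1 hk.2
      exact ⟨p.length, fun _ _ => ⟨p, r, e, rfl⟩⟩
    · exact ⟨0, fun h1 h2 => absurd ⟨h1, h2⟩ hk⟩
  choose o ho using ho
  refine ⟨y, o, h0, hs, fun k hk => ⟨fun hv => ?_, fun hv => (h k hk).2 hv⟩⟩
  obtain ⟨p, r, e, e'⟩ := ho k hk hv
  have l1 := congrArg List.length e
  simp only [List.length_append, List.length_ofFn] at l1
  rw [← e']
  refine ⟨by omega, fun i hi => ?_⟩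
  have b1 := hy (p.length + i) (by omega)
  have b2 := lists_get p (List.ofFn (parWord a (s (k + 1) - s k) ((T a)^[s k] x))) r
    (j := i) (by rw [List.length_ofFn]; exact hi)
  rw [e, List.getD_eq_getElem (List.ofFn _) _ (by rw [List.length_ofFn]; exact hi),
    List.getElem_ofFn] at b2
  rw [b1, b2, par, parWord, Int.emod_emod_of_dvd _ (dvd_refl _),
    ← Function.iterate_add_apply, add_comm]

/-- Twin: `dict_cycles` in `Main`, with `mixed_of_lists` and `mixed_window` (constant `C' + 1`). -/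
theorem mixed_cycles (a : ℕ) (ha : a = 3 ∨ a = 5) (J : ℕ) (C η : ℝ) (hη : 0 < η) :
    ∃ c : ℕ, ∀ m : ℕ, {x : ℤ | x ∈ Function.periodicPts (T a) ∧
      ∃ (n : ℕ) (D : List ℤ) (s v : ℕ → ℕ),
      η * Real.log (Function.minimalPeriod (T a) x) ≤ n ∧
      (∀ i, |(x : ℝ)| ≤ Real.exp (n / η) * |(((T a)^[i] x : ℤ) : ℝ)|) ∧
      (D.length : ℝ) ≤ C * n ∧ s 0 = 0 ∧ Monotone s ∧ s m ≤ Function.minimalPeriod (T a) x ∧
      c * (((Finset.range m).filter fun k => v k ≠ 0).card + 1) * n ≤ s m ∧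
      (∀ k < m, (v k = 0 → List.ofFn (parWord a (s (k + 1) - s k) ((T a)^[s k] x)) <:+: D) ∧
        (v k ≠ 0 → v k ≤ s k ∧ ∀ i, s k ≤ i → i < s (k + 1) →
          (T a)^[i] x % 2 = (T a)^[i - v k] x % 2)) ∧
      ∀ k, k + J ≤ m → (∀ j < J, v (k + j) = 0) → s k + n ≤ s (k + J)}.Finite := by
  obtain ⟨μ, hμ⟩ : ∃ μ, LogMeasure a μ := by
    rcases ha with rfl | rfl
    exacts [⟨_, logMeasure_three⟩, ⟨_, logMeasure_five⟩]
  have ho : Odd a := by rcases ha with rfl | rfl <;> decide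
  have ha3 : 3 ≤ a := by omega
  obtain ⟨C₀, hC₀, hmin⟩ := min_poly a μ ho ha3 hμ
  obtain ⟨C₁, hC₁⟩ := exists_nat_ge (max C (((μ + 1) / η + C₀) / Real.log 2))
  obtain ⟨C₂, hC₂⟩ := exists_nat_ge (1 / η / Real.log 2)
  obtain ⟨C', hC'⟩ : ∃ C', C' = C₂ + C₁ := ⟨_, rfl⟩
  obtain ⟨c, -, hw⟩ := mixed_window a ho ha3 (C' + 1) J (by omega)
  refine ⟨c, fun m => ?_⟩
  obtain ⟨n₀, hw⟩ := hw m
  refine (finite_of_abs_le (2 ^ (C' * (n₀ + 1)))).subset ?_
  rintro x ⟨hx, n, D, s, v, hn0, hn1, hn3, hs0, hs, hn2, hc, hF, hJ⟩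
  set p := Function.minimalPeriod (T a) x with hp
  have hp0 : 0 < p := Function.minimalPeriod_pos_of_mem_periodicPts hx
  have hb : ∀ n', n ≤ n' → 1 ≤ n' → |(x : ℝ)| ≤ 2 ^ (C' * n') := fun n' h1 h2 => by
    have h3 : (n : ℝ) ≤ n' := by exact_mod_cast h1
    have h4 := (hmin x p hp0 (Function.isPeriodicPt_minimalPeriod _ _)
      (|(x : ℝ)| / Real.exp (n / η)) fun i _ => (div_le_iff₀' (Real.exp_pos _)).2 (hn1 i)).trans
      (cxmain_pow_le hη hC₀ h2 hp0 (hn0.trans h3) ((le_max_right _ _).trans hC₁))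
    have h5 : Real.exp (n / η) ≤ 2 ^ (C₂ * n') := by
      have b1 := (div_le_iff₀ (Real.log_pos one_lt_two)).1 hC₂
      have b2 : (n : ℝ) / η ≤ ((C₂ * n' : ℕ) : ℝ) * Real.log 2 := by
        have b3 := mul_le_mul b1 h3 (Nat.cast_nonneg n) ((by positivity : (0 : ℝ) ≤ 1 / η).trans b1)
        push_cast
        calc (n : ℝ) / η = 1 / η * n := by ring
          _ ≤ _ := b3.trans_eq (by ring)
      have b4 := Real.exp_le_exp.2 b2
      rwa [Real.exp_nat_mul, Real.exp_log two_pos] at b4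
    rw [div_le_iff₀' (Real.exp_pos _)] at h4
    rw [hC', add_mul, pow_add]
    exact h4.trans (mul_le_mul_of_nonneg_right h5 (by positivity))
  rcases le_or_gt n (n₀ + 1) with hn | hn
  · exact hb _ hn (by omega)
  exfalso
  have h5 : |x| ≤ 2 ^ (C' * n) := by exact_mod_cast hb n le_rfl (by omega)
  have h11 : C ≤ C' := ((le_max_left _ _).trans hC₁).trans (by exact_mod_cast (by omega))
  have h10 : D.length ≤ C' * n := by
    exact_mod_cast hn3.trans (mul_le_mul_of_nonneg_right h11 (show (0 : ℝ) ≤ n by positivity))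
  have h1 : C' * n ≤ (C' + 1) * n := Nat.mul_le_mul_right _ (by omega)
  obtain ⟨y, o, hM⟩ := mixed_of_lists ho x D _ m s v (h10.trans h1) hs0 hs hF
  obtain ⟨i, j, hij, hj, h⟩ := hw n (by omega) x y s o v
    (h5.trans (pow_le_pow_right₀ one_le_two h1)) hM hJ hc
  exact hij.ne
    (Function.iterate_injOn_Iio_minimalPeriod (hij.trans (hj.trans_le hn2)) (hj.trans_le hn2) h)

end Pool.Agent.Lib.MP_dee342_nt.Dc
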