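import Pool.Agent.Lib.MP_dee342_nt.Dc.Defs

/-! A long run of dictionary pieces. -/

set_option autoImplicit false

namespace Pool.Agent.Lib.MP_dee342_nt.Dc

open Finset Gr

/-- Let `K = (q + 1) q₀`. By induction `s k ≤ k B ≤ S` for `k ≤ min K m`; so `K < m` (else
`s m ≤ S`). If each of the `q + 1` groups `[g q₀, (g + 1) q₀)` contained a `k` with `v k ≠ 0`, the
filter would have `q + 1` elements (choose one in each group, injective as `k / q₀ = g`). -/
theorem long_run (m q q₀ B S : ℕ) (s v : ℕ → ℕ) (h0 : s 0 = 0)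
    (h1 : ∀ k < m, s k ≤ S → s (k + 1) ≤ s k + B)
    (h2 : ((range m).filter fun k => v k ≠ 0).card ≤ q) (h3 : (q + 1) * q₀ * B ≤ S)
    (h4 : S < s m) : ∃ k, k + q₀ ≤ m ∧ s k ≤ S ∧ s (k + q₀) ≤ S ∧ ∀ j < q₀, v (k + j) = 0 := by
  have key : ∀ k, k ≤ (q + 1) * q₀ → k ≤ m → s k ≤ k * B := by
    intro k
    induction k with
    | zero => intro _ _; omega
    | succ k ih =>
      intro a b
      have e1 := ih (by omega) (by omega)
      have e2 : k * B ≤ (q + 1) * q₀ * B := Nat.mul_le_mul_right _ (by omega)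
      have e3 := h1 k (by omega) (by omega)
      rw [add_mul, one_mul]
      omega
  have key2 : ∀ k, k ≤ (q + 1) * q₀ → k ≤ m → s k ≤ S := fun k a b =>
    (key k a b).trans ((Nat.mul_le_mul_right _ a).trans h3)
  have hK : (q + 1) * q₀ < m := by
    by_contra hc
    exact absurd (key2 m (by omega) le_rfl) (by omega)
  by_contra hc
  have hg : ∀ g : ℕ, g < q + 1 → ∃ j, j < q₀ ∧ v (g * q₀ + j) ≠ 0 := by
    intro g hg
    have e1 : g * q₀ + q₀ ≤ (q + 1) * q₀ := by
      rw [← Nat.succ_mul]
      exact Nat.mul_le_mul_right _ hg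
    by_contra hn
    refine hc ⟨g * q₀, by omega, key2 _ (by omega) (by omega), key2 _ e1 (by omega),
      fun j hj => ?_⟩
    by_contra h5
    exact hn ⟨j, hj, h5⟩
  choose! f hf1 hf2 using hg
  have h5 : (range (q + 1)).card ≤ ((range m).filter fun k => v k ≠ 0).card := by
    refine card_le_card_of_injOn (fun g => g * q₀ + f g) (fun g hg => ?_) fun g hg g' hg' e => ?_
    · have hg := mem_range.1 (mem_coe.1 hg)
      have e1 : g * q₀ + q₀ ≤ (q + 1) * q₀ := by
        rw [← Nat.succ_mul]
        exact Nat.mul_le_mul_right _ hg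
      have e2 := hf1 g hg
      exact mem_coe.2 (mem_filter.2 ⟨mem_range.2 (show g * q₀ + f g < m by omega), hf2 g hg⟩)
    · have e1 := hf1 g (mem_range.1 (mem_coe.1 hg))
      have e2 := hf1 g' (mem_range.1 (mem_coe.1 hg'))
      have e3 : g * q₀ + f g = g' * q₀ + f g' := e
      rcases lt_trichotomy g g' with c | c | c
      · have := Nat.mul_le_mul_right q₀ (Nat.succ_le_of_lt c)
        rw [Nat.succ_mul] at this
        omega
      · exact c
      · have := Nat.mul_le_mul_right q₀ (Nat.succ_le_of_lt c)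
        rw [Nat.succ_mul] at this
        omega
  rw [card_range] at h5
  omega

end Pool.Agent.Lib.MP_dee342_nt.Dc
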