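import Pool.Agent.Lib.MP_dee342_nt.Dc.Small
import Pool.Agent.Lib.MP_dee342_nt.Dc.Long
import Pool.Agent.Lib.MP_dee342_nt.Dc.Grow

/-! The window theorem. -/

set_option autoImplicit false

namespace Pool.Agent.Lib.MP_dee342_nt.Dc

open Finset Gr

/-- `c₀` from `growth_dict`, `c = c₀ C`, `κ = 3a + 2`, `E₁ = 3 (J+1) κ^J + 1`, `W` from `small_time`,
`h = n / E₁ ≥ a + 3`, `d = h / (a + 2)`, `H = 4 C E₁ (a + 2)` (so `C n ≤ H d`),
`M = (J + 1) (H + 1)`, `V = W + 2 J + 1`, `q = (M + 1) V + J c`. For `k ≤ (M + 1) V`, `Dict.far`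
gives `s k + c n ≤ s q`, so the values at the cuts are at most `2^(c n)`. For each `g ≤ M` take a
small time in the window at `p = g V` and apply `long_piece` with `p' = g V + W`: `m g`, `i' g`,
`u g`. For `g < g'`: `i' g + n ≤ s (g V + W + J + 1) + n ≤ s ((g + 1) V) ≤ i' g'`, and `d < n`.
Pigeonhole on ` (m g, u g / d)`, then `collide` (`rgstep_close` in `RgStep` or a direct argument
gives `Cl`). -/
theorem dict_window (a : ℕ) (ha : Odd a) (ha3 : 3 ≤ a) (C J : ℕ) (hC : 1 ≤ C) : ∃ q n₀ : ℕ,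
    ∀ n ≥ n₀, ∀ (x y : ℤ) (s o : ℕ → ℕ), |x| ≤ 2 ^ (C * n) → Dict a x y (C * n) n J q s o →
      ∃ i j, i < j ∧ j ≤ s q ∧ (T a)^[i] x = (T a)^[j] x := by
  obtain ⟨c₀, hg⟩ := growth_dict a ha ha3
  obtain ⟨K, hK⟩ : ∃ K, K = 3 * (J + 1) * (3 * a + 2) ^ J := ⟨_, rfl⟩
  have K0 : 0 < K := by rw [hK]; positivity
  obtain ⟨W, n₁, hW⟩ := small_time a ha ha3 C J (c₀ * C) (K + 1) (by omega)
  obtain ⟨H, hH⟩ : ∃ H, H = 4 * C * (K + 1) * (a + 2) := ⟨_, rfl⟩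
  obtain ⟨M, hM⟩ : ∃ M, M = (J + 1) * (H + 1) := ⟨_, rfl⟩
  obtain ⟨V, hV⟩ : ∃ V, V = W + 2 * J + 1 := ⟨_, rfl⟩
  obtain ⟨q, hq⟩ : ∃ q, q = (M + 1) * V + J * (c₀ * C) := ⟨_, rfl⟩
  obtain ⟨N₀, hN⟩ := hg q
  refine ⟨q, n₁ + N₀ + (a + 3) * (K + 1), fun n hn x y s o hx hD => ?_⟩
  obtain ⟨h, hh⟩ : ∃ h, h = n / (K + 1) := ⟨_, rfl⟩
  have h1 : a + 3 ≤ h := hh ▸ (Nat.le_div_iff_mul_le (by omega)).2 (by omega)
  have h2 : (K + 1) * h ≤ n := hh ▸ Nat.mul_div_le n (K + 1)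
  have h3 : n < (K + 1) * (h + 1) := hh ▸ Nat.lt_mul_div_succ n (by omega)
  obtain ⟨d, hd⟩ : ∃ d, d = h / (a + 2) := ⟨_, rfl⟩
  have d1 : 1 ≤ d := hd ▸ (Nat.le_div_iff_mul_le (by omega)).2 (by omega)
  have d2 : (a + 2) * d ≤ h := hd ▸ Nat.mul_div_le h (a + 2)
  have d3 : h < (a + 2) * (d + 1) := hd ▸ Nat.lt_mul_div_succ h (by omega)
  have d4 : h + 1 ≤ 4 * ((a + 2) * d) := by nlinarith
  have d5 : C * n ≤ d * H :=
    calc C * n ≤ C * ((K + 1) * (4 * ((a + 2) * d))) :=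
          Nat.mul_le_mul_left _ (h3.le.trans (Nat.mul_le_mul_left _ d4))
      _ = d * H := by rw [hH]; ring
  have d6 : d < n := by nlinarith
  have d7 : K * h < n := by nlinarith
  have mono := hD.2.1
  have cut : ∀ k ≤ (M + 1) * V, |(T a)^[s k] x| ≤ 2 ^ (c₀ * C * n) := fun k hk => by
    have e1 := hD.far k (c₀ * C) (by omega)
    have e2 := mono (show k + J * (c₀ * C) ≤ q by omega)
    rw [mul_assoc] at e1 ⊢
    exact hN (C * n) (by nlinarith) x y n J s o hx hD _ (by omega)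
  have gv : ∀ g ≤ M, g * V + V ≤ (M + 1) * V := fun g hg => by
    rw [← add_one_mul]
    exact Nat.mul_le_mul_right _ (by omega)
  have ex : ∀ g, g ≤ M → ∃ m ≤ J, ∃ i' u, s (g * V) ≤ i' ∧
      i' + 3 * ((3 * a + 2) ^ m * h) ≤ s (g * V + W + J + 1) ∧ u ≤ C * n ∧
      |(T a)^[i'] x| ≤ 2 ^ ((3 * a + 2) ^ m * h) ∧
      ∀ j < 3 * ((3 * a + 2) ^ m * h), par a x (i' + j) = par a y (u + j) := fun g hg => by
    have e0 := gv g hg
    obtain ⟨i, e1, e2, e3⟩ := hW n (by omega) x y q s o (g * V) hD (by omega)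
      fun k hk => cut k (by omega)
    obtain ⟨m, e4, i', u, e5, e6⟩ := long_piece ha ha3 hD (h := h) e2 (by omega) (by omega)
      (hh ▸ e3) (hK ▸ d7)
    exact ⟨m, e4, i', u, e1.trans e5, e6⟩
  choose! m hm i' u e1 e2 e3 e4 e5 using ex
  have key : ∀ g g', g < g' → g' ≤ M → m g = m g' → u g / d = u g' / d →
      ∃ i j, i < j ∧ j ≤ s q ∧ (T a)^[i] x = (T a)^[j] x := fun g g' a1 a2 a3 a4 => by
    have b0 := gv g (by omega)
    have b1 := gv g' a2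
    have b2 := hD.2.2.2 (g * V + W + J + 1) (by omega)
    have b3 : g * V + V ≤ g' * V := by
      rw [← add_one_mul]
      exact Nat.mul_le_mul_right _ a1
    have b4 := mono (show g * V + W + J + 1 + J ≤ g' * V by omega)
    have b5 := e1 g' a2
    have b6 := e2 g (by omega)
    have b7 : h ≤ (3 * a + 2) ^ m g' * h := Nat.le_mul_of_pos_left _ (by positivity)
    have c1 := Nat.mul_div_le (u g) d
    have c2 := Nat.mul_div_le (u g') d
    have c3 := Nat.lt_mul_div_succ (u g) d1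
    have c4 := Nat.lt_mul_div_succ (u g') d1
    rw [a4] at c1 c3
    rw [mul_add, mul_one] at c3 c4
    have c5 : (a + 1) * d ≤ h := (Nat.mul_le_mul_right _ (by omega)).trans d2
    obtain ⟨i, j, f1, f2, f3⟩ := collide ha ha3 (x := x) (y := y) (H := (3 * a + 2) ^ m g' * h)
      (d := d) (i₁ := i' g) (i₂ := i' g') (u₁ := u g) (u₂ := u g') (by omega) (by omega)
      ⟨by omega, by omega⟩ (a3 ▸ e4 g (by omega)) (e4 g' a2) (a3 ▸ e5 g (by omega)) (e5 g' a2)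
    exact ⟨i, j, f1, f2.trans ((e2 g' a2).trans (mono (by omega))), f3⟩
  obtain ⟨g, g1, g', g2, g3, g4⟩ := exists_ne_map_eq_of_card_lt_of_maps_to
    (s := range (M + 1)) (t := range (J + 1) ×ˢ range (H + 1))
    (by rw [card_product, card_range, card_range, card_range]; omega)
    (f := fun g => (m g, u g / d)) fun g hg => by
      have g0 : g ≤ M := Nat.lt_succ_iff.1 (mem_range.1 hg)
      exact mem_coe.2 (mem_product.2 ⟨mem_range.2 (Nat.lt_succ_of_le (hm g g0)),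
        mem_range.2 (Nat.lt_succ_of_le (Nat.div_le_of_le_mul ((e3 g g0).trans d5)))⟩)
  rw [mem_range, Nat.lt_succ_iff] at g1 g2
  obtain ⟨g5, g6⟩ := Prod.mk.inj g4
  rcases lt_or_gt_of_ne g3 with b | b
  · exact key g g' b g2 g5 g6
  · exact key g' g b g1 g5.symm g6.symm

end Pool.Agent.Lib.MP_dee342_nt.Dc
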