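import Pool.Agent.Lib.MP_dee342_nt.Dc.Mix
import Pool.Agent.Lib.MP_dee342_nt.Dc.Run
import Pool.Agent.Lib.MP_dee342_nt.Dc.Win

/-! The window theorem for mixed parses. -/

set_option autoImplicit false

namespace Pool.Agent.Lib.MP_dee342_nt.Dc

open Finset Gr

/-- `c₀` from `growth_mixed`, `C' = (c₀ + 1) C`, `q₀, n₀` from `dict_window a C' J`,
`B = (c₀ + 1) C n` (at least `C n` and `c₀ C n + 1`), `c = (q₀ (c₀ + 1) + c₀) C + 1`. With `q` the
number of copies let `S₀ = c (q + 1) n - 1` (`≤ s m`, `≤ A (C n)` for `A = c (m + 1)`, as `q ≤ m`)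
and `S = (q + 1) q₀ B`, so `S + c₀ C n ≤ S₀ < s m`. Suppose the iterates below `s m` are distinct.
Values at times `≤ S` are at most `2^(c₀ C n)`; a copy starting at `s k ≤ S` has at most
`c₀ C n + 1` letters (`copy_le`). Take `k` from `long_run` and apply `dict_window` to
`T^(s k) x`, `fun j => s (k + j) - s k`, `fun j => o (k + j)` (`par_shift`,
`Function.iterate_add_apply`). -/
theorem mixed_window (a : ℕ) (ha : Odd a) (ha3 : 3 ≤ a) (C J : ℕ) (hC : 1 ≤ C) : ∃ c : ℕ, 1 ≤ c ∧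
    ∀ m : ℕ, ∃ n₀ : ℕ, ∀ n ≥ n₀, ∀ (x y : ℤ) (s o v : ℕ → ℕ), |x| ≤ 2 ^ (C * n) →
      Mixed a x y (C * n) m s o v →
      (∀ k, k + J ≤ m → (∀ j < J, v (k + j) = 0) → s k + n ≤ s (k + J)) →
      c * (((range m).filter fun k => v k ≠ 0).card + 1) * n ≤ s m →
      ∃ i j, i < j ∧ j < s m ∧ (T a)^[i] x = (T a)^[j] x := by
  obtain ⟨c₀, hg⟩ := growth_mixed a ha ha3
  obtain ⟨q₀, n₁, hW⟩ := dict_window a ha ha3 ((c₀ + 1) * C) J (Nat.mul_pos c₀.succ_pos hC)
  obtain ⟨c, hc⟩ : ∃ c, c = (q₀ * (c₀ + 1) + c₀) * C + 1 := ⟨_, rfl⟩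
  refine ⟨c, by omega, fun m => ?_⟩
  obtain ⟨N₀, hN⟩ := hg m (c * (m + 1))
  refine ⟨n₁ + N₀ + 1, fun n hn x y s o v hx hM hfar hq => ?_⟩
  obtain ⟨q, hqd⟩ : ∃ q, q = ((range m).filter fun k => v k ≠ 0).card := ⟨_, rfl⟩
  rw [← hqd] at hq
  have qm : q ≤ m := hqd ▸ (card_filter_le _ _).trans_eq (card_range m)
  obtain ⟨N, hNd⟩ : ∃ N, N = C * n := ⟨_, rfl⟩
  have nN : n ≤ N := hNd ▸ Nat.le_mul_of_pos_left _ hC
  obtain ⟨D, hD⟩ : ∃ D, D = c₀ * N := ⟨_, rfl⟩
  have hB : (c₀ + 1) * C * n = D + N := by rw [hD, hNd]; ring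
  obtain ⟨S, hS⟩ : ∃ S, S = (q + 1) * q₀ * (D + N) := ⟨_, rfl⟩
  have e0 : c * (q + 1) * n = S + D + n + (q * D + q * n) := by rw [hS, hD, hNd, hc]; ring
  have e2 : c * (q + 1) * n ≤ c * (m + 1) * N := by gcongr
  rw [← hNd] at hx hM
  have val : ∀ i ≤ S, |(T a)^[i] x| ≤ 2 ^ D := fun i hi =>
    hD ▸ hN N (by omega) x y s o v (S + D) hx hM (by omega) (by omega) i (by omega)
  by_contra hcon
  push Not at hcon
  obtain ⟨h0, mono, hp⟩ := hM
  obtain ⟨k, k1, k2, k3, k4⟩ := long_run m q q₀ (D + N) S s v h0 (fun k hk hs => by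
    by_cases hv : v k = 0
    · have := ((hp k hk).1 hv).1
      omega
    · obtain ⟨b1, b2⟩ := (hp k hk).2 hv
      have := copy_le ha x (s k) (s (k + 1)) (v k) D b1 b2
        (hcon (s k - v k) (s k) (by omega) (by omega)).symm (val _ hs) (val _ (by omega))
      omega) hqd.ge hS.ge (by omega)
  have mk : ∀ j, s k ≤ s (k + j) := fun j => mono (Nat.le_add_right _ _)
  obtain ⟨i, j, ij, j1, e⟩ := hW n (by omega) ((T a)^[s k] x) y (fun j => s (k + j) - s k)
    (fun j => o (k + j))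
    ((val _ k2).trans (pow_le_pow_right₀ one_le_two (by omega)))
    ⟨by simp, fun u w h => Nat.sub_le_sub_right (mono (Nat.add_le_add_left h k)) _,
      fun j hj => by
        obtain ⟨b1, b2⟩ := (hp (k + j) (by omega)).1 (k4 j hj)
        have b3 := mk j
        have b4 : s (k + j) ≤ s (k + j + 1) := mono (Nat.le_succ _)
        simp only [← add_assoc]
        refine ⟨by omega, fun i hi => ?_⟩
        rw [par_shift, show s k + (s (k + j) - s k + i) = s (k + j) + i by omega]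
        exact b2 i (by omega),
      fun j hj => by
        have b1 := hfar (k + j) (by omega) fun i hi => by
          rw [add_assoc]
          exact k4 _ (by omega)
        have b3 := mk j
        simp only [← add_assoc]
        omega⟩
  have b3 := mk q₀
  refine hcon (i + s k) (j + s k) (by omega) (by omega) ?_
  rwa [Function.iterate_add_apply, Function.iterate_add_apply]

end Pool.Agent.Lib.MP_dee342_nt.Dc
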