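import Pool.Agent.Lib.MP_dee342_nt.Dc.Defs

/-! The weights along equal words and at close places. -/

set_option autoImplicit false

namespace Pool.Agent.Lib.MP_dee342_nt.Dc

open Finset Gr

theorem nu_congr {a : ℕ} (ha : Odd a) (x y : ℤ) (s o l : ℕ)
    (h : ∀ i < l, par a x (s + i) = par a y (o + i)) :
    od a x s l = od a y o l ∧ cs a x s l = cs a y o l := by
  induction l with
  | zero => simp [cxaff_cs_zero, cxaff_od_zero]
  | succ l ih =>
    obtain ⟨h1, h2⟩ := ih fun j hj => h j (by omega)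
    have hl := h l (by omega)
    rw [cs_add, cs_add, od_add, od_add, h1, h2]
    by_cases hp : par a x (s + l) = 0
    · obtain ⟨e1, e2⟩ := cxaff_even a x (s + l) hp
      obtain ⟨e3, e4⟩ := cxaff_even a y (o + l) (hl ▸ hp)
      rw [e1, e2, e3, e4]
      exact ⟨rfl, rfl⟩
    · obtain ⟨e1, e2⟩ := cxaff_odd ha x (s + l) hp
      obtain ⟨e3, e4⟩ := cxaff_odd ha y (o + l) (hl ▸ hp)
      rw [e1, e2, e3, e4]
      exact ⟨rfl, rfl⟩

theorem nu_sm {a δ i j : ℕ} (ha : 1 ≤ a) {z : ℚ} {m : ℤ} (hi : i ≤ δ) (hj : j ≤ δ)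
    (h : z * (2 ^ i * (a : ℚ) ^ j) = m) (hm : |m| ≤ (2 * a : ℤ) ^ δ) : Sm a δ 1 z := by
  have h1 : (1 : ℚ) ≤ a := by exact_mod_cast ha
  refine ⟨⟨2 ^ (δ - i) * (a : ℤ) ^ (δ - j) * m, ?_⟩, ?_⟩
  · have e1 : (2 : ℚ) ^ δ = 2 ^ (δ - i) * 2 ^ i := by rw [← pow_add, Nat.sub_add_cancel hi]
    have e2 : (a : ℚ) ^ δ = a ^ (δ - j) * a ^ j := by rw [← pow_add, Nat.sub_add_cancel hj]
    push_cast
    rw [← h, mul_pow, e1, e2]
    ring
  · have h2 : (1 : ℚ) ≤ 2 ^ i * (a : ℚ) ^ j :=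
      one_le_mul_of_one_le_of_one_le (one_le_pow₀ one_le_two) (one_le_pow₀ h1)
    have h3 : |(m : ℚ)| ≤ (2 * a : ℚ) ^ δ := by exact_mod_cast hm
    rw [← h, abs_mul, abs_of_nonneg (zero_le_one.trans h2)] at h3
    rw [mul_one]
    exact (le_mul_of_one_le_right (abs_nonneg _) h2).trans h3

/-- Induction on `l` shows `od a x s l = od a y o l` and `cs a x s l = cs a y o l` (copy the proof
of `cs_congr` in `CxAff`, with two integers); then use `nu_add`, `eta_add` for both and cancel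
`a ^ od`. -/
theorem link {a : ℕ} (ha : Odd a) (x y : ℤ) (s o l : ℕ)
    (h : ∀ i < l, par a x (s + i) = par a y (o + i)) :
    nu a x (s + l) * nu a y o = nu a x s * nu a y (o + l) ∧
      (eta a x (s + l) - eta a x s) * nu a y o = (eta a y (o + l) - eta a y o) * nu a x s := by
  have h1 : 1 ≤ a := ha.pos
  obtain ⟨e1, e2⟩ := nu_congr ha x y s o l h
  have n1 := nu_add h1 x s l
  have n2 := nu_add h1 y o l
  have n3 := eta_add h1 x s l
  have n4 := eta_add h1 y o l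
  rw [e1] at n1 n3
  rw [e2] at n3
  have h0 : (a : ℚ) ^ od a y o l ≠ 0 := pow_ne_zero _ (by exact_mod_cast (by omega : a ≠ 0))
  constructor
  · refine mul_right_cancel₀ h0 ?_
    linear_combination nu a y o * n1 - nu a x s * n2
  · refine mul_right_cancel₀ h0 ?_
    linear_combination nu a y o * n3 - nu a x s * n4

/-- If `v = u + δ`, the two numbers are `2^δ / a^κ` and `-cs / a^κ` (`κ = od a y u δ ≤ δ`); if
`u = v + δ` they are `a^κ / 2^δ` and `cs / 2^δ` (`nu_add`, `eta_add`); `0 ≤ cs ≤ a^δ` by `cs_bound`.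
Prove `Sm a δ 1` and use `Sm.mono`. -/
theorem close {a : ℕ} (ha : Odd a) (ha3 : 3 ≤ a) (y : ℤ) {d u v : ℕ} (h : Cl d u v) :
    Sm a d 1 (nu a y v / nu a y u) ∧ Sm a d 1 ((eta a y u - eta a y v) / nu a y u) := by
  have h1 : 1 ≤ a := by omega
  have h2 : (1 : ℤ) ≤ a := by exact_mod_cast h1
  have b1 : ∀ δ κ : ℕ, κ ≤ δ → (a : ℤ) ^ κ ≤ (2 * a : ℤ) ^ δ := fun δ κ hκ =>
    (pow_le_pow_right₀ h2 hκ).trans (pow_le_pow_left₀ (by omega) (by omega) δ)
  have b2 : ∀ w δ : ℕ, |cs a y w δ| ≤ (2 * a : ℤ) ^ δ := fun w δ => by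
    obtain ⟨c0, -, c1⟩ := cs_bound ha ha3 y w δ
    rw [abs_of_nonneg c0]
    exact c1.trans (b1 δ δ le_rfl)
  have hu := (nu_pos h1 y u).ne'
  rcases le_total u v with c | c
  · obtain ⟨δ, rfl⟩ := Nat.exists_eq_add_of_le c
    have hδ : δ ≤ d := by have := h.2; omega
    have n1 := nu_add h1 y u δ
    have n2 := eta_add h1 y u δ
    refine ⟨(nu_sm (i := 0) (m := 2 ^ δ) h1 (Nat.zero_le δ) (od_le a y u δ) ?_ ?_).mono h1 hδ
      le_rfl, (nu_sm (i := 0) (m := -cs a y u δ) h1 (Nat.zero_le δ) (od_le a y u δ) ?_ ?_).mono h1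
        hδ le_rfl⟩
    · rw [div_mul_eq_mul_div, div_eq_iff hu]
      push_cast
      linear_combination n1
    · rw [abs_of_nonneg (by positivity)]
      exact pow_le_pow_left₀ (by omega) (by omega) δ
    · rw [div_mul_eq_mul_div, div_eq_iff hu]
      push_cast
      linear_combination -n2
    · rw [abs_neg]
      exact b2 u δ
  · obtain ⟨δ, rfl⟩ := Nat.exists_eq_add_of_le c
    have hδ : δ ≤ d := by have := h.1; omega
    have n1 := nu_add h1 y v δ
    have n2 := eta_add h1 y v δ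
    have h0 : (a : ℚ) ^ od a y v δ ≠ 0 := pow_ne_zero _ (by exact_mod_cast (by omega : a ≠ 0))
    refine ⟨(nu_sm (j := 0) (m := (a : ℤ) ^ od a y v δ) h1 le_rfl (Nat.zero_le δ) ?_ ?_).mono h1 hδ
      le_rfl, (nu_sm (j := 0) (m := cs a y v δ) h1 le_rfl (Nat.zero_le δ) ?_ (b2 v δ)).mono h1 hδ
        le_rfl⟩
    · rw [div_mul_eq_mul_div, div_eq_iff hu]
      push_cast
      linear_combination -n1
    · rw [abs_of_nonneg (by positivity)]
      exact b1 _ _ (od_le a y v δ)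
    · rw [div_mul_eq_mul_div, div_eq_iff hu]
      refine mul_right_cancel₀ h0 ?_
      linear_combination 2 ^ δ * n2 - (cs a y v δ : ℚ) * n1

end Pool.Agent.Lib.MP_dee342_nt.Dc
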