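import Pool.Agent.Lib.MP_dee342_nt.Dc.Defs

/-! Pigeonhole and numerical facts. -/

set_option autoImplicit false

namespace Pool.Agent.Lib.MP_dee342_nt.Dc

open Finset Gr

theorem pigeon_cl {d u v : ℕ} (hd : 1 ≤ d) (h : u / d = v / d) : Cl d u v := by
  have h1 := Nat.div_add_mod u d
  have h2 := Nat.div_add_mod v d
  have h3 := Nat.mod_lt u hd
  have h4 := Nat.mod_lt v hd
  rw [h] at h1
  constructor <;> omega

theorem pigeon_lt {σ : Type} [Fintype σ] (f : Fin (Fintype.card σ + 1) → σ) :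
    ∃ g g', g < g' ∧ f g = f g' := by
  obtain ⟨g, g', h1, h2⟩ := Fintype.exists_ne_map_eq_of_card_lt f (by simp)
  rcases lt_or_gt_of_ne h1 with h | h
  · exact ⟨g, g', h, h2⟩
  · exact ⟨g', g, h, h2.symm⟩

/-- Model: `two_windows` in `RgStep`. Pigeonhole on the map sending `g ≤ (H+1)^(2W)` to the
quotients `o (p₀ + g J + i) / d`, `e (p₀ + g J + i) / d ≤ H`, `i < W`; `P = (H+1)^(2W) J`. -/
theorem pigeon (H W J : ℕ) : ∃ P : ℕ, ∀ (o e : ℕ → ℕ) (p₀ d : ℕ), 1 ≤ d →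
    (∀ k, p₀ ≤ k → k < p₀ + (P + W) → o k ≤ H * d ∧ e k ≤ H * d) →
    ∃ p p', p₀ ≤ p ∧ p + J ≤ p' ∧ p' ≤ p₀ + P ∧
      ∀ i < W, Cl d (o (p + i)) (o (p' + i)) ∧ Cl d (e (p + i)) (e (p' + i)) := by
  refine ⟨Fintype.card (Fin W → Fin (H + 1) × Fin (H + 1)) * J, fun o e p₀ d hd h => ?_⟩
  have hb : ∀ g : Fin (Fintype.card (Fin W → Fin (H + 1) × Fin (H + 1)) + 1),
      g * J ≤ Fintype.card (Fin W → Fin (H + 1) × Fin (H + 1)) * J :=
    fun g => Nat.mul_le_mul_right J (Nat.lt_succ_iff.1 g.2)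
  have hq : ∀ u, u ≤ H * d → u / d < H + 1 := fun u hu =>
    Nat.lt_succ_of_le (Nat.div_le_of_le_mul (by rwa [mul_comm]))
  have hk := fun (g : Fin (Fintype.card (Fin W → Fin (H + 1) × Fin (H + 1)) + 1))
      (i : Fin W) => h (p₀ + g.1 * J + i) (by omega) (by
    have := hb g
    have := i.2
    omega)
  obtain ⟨g, g', h1, h2⟩ := pigeon_lt (σ := Fin W → Fin (H + 1) × Fin (H + 1)) fun g i =>
    (⟨_, hq _ (hk g i).1⟩, ⟨_, hq _ (hk g i).2⟩)
  refine ⟨p₀ + g * J, p₀ + g' * J, by omega, ?_, Nat.add_le_add_left (hb g') _, fun i hi => ?_⟩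
  · have : (g.1 + 1) * J ≤ g' * J := Nat.mul_le_mul_right J h1
    rw [add_mul] at this
    omega
  · have h3 := Prod.ext_iff.1 (congrFun h2 ⟨i, hi⟩)
    exact ⟨pigeon_cl hd (congrArg Fin.val h3.1), pigeon_cl hd (congrArg Fin.val h3.2)⟩

theorem num_sq {u : ℕ} (hu : 4 ≤ u) : u * u ≤ 2 ^ u := by
  induction u, hu using Nat.le_induction with
  | base => norm_num
  | succ u hu ih =>
    rw [pow_succ]
    nlinarith

/-- With `v = n / E₀`, `d = v / (2 W' + 2)`: `n ≤ 2 E₀ v`, `v ≤ 2 (2 W' + 2) d`; `r + 1 ≤ (2a)^v`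
for `v ≥ r`, `2 a ≤ 2^a`, and `a (4r+1) (r+1) v ≤ n / E` (`Nat.le_div_iff_mul_le`,
`Nat.div_mul_le_self`). The last fact: `n < E (u + 1)` with `u = n / E` large, and a linear function
of `u` is below `2^u` (for example `u² ≤ 2^u` for `u ≥ 4`). -/
theorem num (a r E E₀ W' W B : ℕ) (ha : 3 ≤ a) (hr : 1 ≤ r) (hE : 1 ≤ E)
    (h₀ : E * (a * (4 * r + 1) * (r + 1)) ≤ E₀) : ∃ n₀ : ℕ, ∀ n ≥ n₀,
      1 ≤ n / E₀ / (2 * W' + 2) ∧ n ≤ 4 * E₀ * (2 * W' + 2) * (n / E₀ / (2 * W' + 2)) ∧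
      r * (n / E₀) + 2 * (n / E₀ / (2 * W' + 2)) * W' + 2 ≤ (r + r) * (n / E₀) ∧
      ((r + 1) * (2 * a : ℚ) ^ (2 * ((r + r) * (n / E₀)))) ^ (r + 1) ≤ 2 ^ (n / E) ∧
      W + B * n ≤ 2 ^ (n / E) := by
  have hE₀ : 0 < E₀ := lt_of_lt_of_le (by positivity) h₀
  refine ⟨(2 * W' + 2 + r) * E₀ + (4 + W + 2 * B * E) * E, fun n hn => ?_⟩
  have v1 : 2 * W' + 2 + r ≤ n / E₀ := (Nat.le_div_iff_mul_le hE₀).2 (by omega)
  have v2 : n / E₀ * E₀ ≤ n := Nat.div_mul_le_self _ _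
  have v3 : n < E₀ * (n / E₀ + 1) := Nat.lt_mul_div_succ _ hE₀
  have u1 : 4 + W + 2 * B * E ≤ n / E := (Nat.le_div_iff_mul_le hE).2 (by omega)
  have u3 : n < E * (n / E + 1) := Nat.lt_mul_div_succ _ hE
  have u4 : a * (4 * r + 1) * (r + 1) * (n / E₀) ≤ n / E := by
    refine (Nat.le_div_iff_mul_le hE).2 (le_trans ?_ v2)
    calc a * (4 * r + 1) * (r + 1) * (n / E₀) * E
        = n / E₀ * (E * (a * (4 * r + 1) * (r + 1))) := by ring
      _ ≤ n / E₀ * E₀ := Nat.mul_le_mul_left _ h₀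
  generalize n / E₀ = v at *
  generalize n / E = u at *
  have d1 : 1 ≤ v / (2 * W' + 2) := (Nat.le_div_iff_mul_le (by omega)).2 (by omega)
  have d2 : v / (2 * W' + 2) * (2 * W' + 2) ≤ v := Nat.div_mul_le_self _ _
  have d3 : v < (2 * W' + 2) * (v / (2 * W' + 2) + 1) := Nat.lt_mul_div_succ _ (by omega)
  generalize v / (2 * W' + 2) = d at *
  refine ⟨d1, ?_, ?_, ?_, ?_⟩
  · have e1 : v ≤ (2 * W' + 2) * (2 * d) := d3.le.trans (Nat.mul_le_mul_left _ (by omega))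
    calc n ≤ E₀ * (2 * v) := v3.le.trans (Nat.mul_le_mul_left _ (by omega))
      _ ≤ E₀ * (2 * ((2 * W' + 2) * (2 * d))) :=
          Nat.mul_le_mul_left _ (Nat.mul_le_mul_left _ e1)
      _ = 4 * E₀ * (2 * W' + 2) * d := by ring
  · have e1 : v ≤ r * v := Nat.le_mul_of_pos_left _ hr
    have e2 : d * (2 * W' + 2) = 2 * d * W' + 2 * d := by ring
    rw [add_mul]
    omega
  · have e1 : 2 * a ≤ 2 ^ a := by
      obtain ⟨b, rfl⟩ : ∃ b, a = b + 1 := ⟨a - 1, by omega⟩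
      rw [pow_succ']
      exact Nat.mul_le_mul_left _ Nat.lt_two_pow_self
    have e2 : r + 1 ≤ (2 * a) ^ v :=
      ((Nat.succ_le_of_lt Nat.lt_two_pow_self).trans
        (Nat.pow_le_pow_right (by norm_num) (by omega : r ≤ v))).trans
        (Nat.pow_le_pow_left (by omega) _)
    have e3 : ((r + 1) * (2 * a) ^ (2 * ((r + r) * v))) ^ (r + 1) ≤ 2 ^ u := by
      calc ((r + 1) * (2 * a) ^ (2 * ((r + r) * v))) ^ (r + 1)
          ≤ ((2 * a) ^ v * (2 * a) ^ (2 * ((r + r) * v))) ^ (r + 1) :=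
            Nat.pow_le_pow_left (Nat.mul_le_mul_right _ e2) _
        _ = (2 * a) ^ ((4 * r + 1) * (r + 1) * v) := by
            rw [← pow_add, ← pow_mul]
            congr 1
            ring
        _ ≤ (2 ^ a) ^ ((4 * r + 1) * (r + 1) * v) := Nat.pow_le_pow_left e1 _
        _ ≤ 2 ^ u := by
            rw [← pow_mul]
            exact Nat.pow_le_pow_right (by norm_num) (le_trans (le_of_eq (by ring)) u4)
    exact_mod_cast e3
  · have e1 : n ≤ E * (2 * u) := u3.le.trans (Nat.mul_le_mul_left _ (by omega))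
    calc W + B * n ≤ W * u + B * (E * (2 * u)) :=
          Nat.add_le_add (Nat.le_mul_of_pos_right _ (by omega)) (Nat.mul_le_mul_left _ e1)
      _ = (W + 2 * B * E) * u := by ring
      _ ≤ u * u := Nat.mul_le_mul_right _ (by omega)
      _ ≤ 2 ^ u := num_sq (by omega)

end Pool.Agent.Lib.MP_dee342_nt.Dc
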