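import Pool.Agent.Lib.MP_dee342_nt.Dc.Defs

/-! A relation between the coefficients is a relation between the values. -/

set_option autoImplicit false

namespace Pool.Agent.Lib.MP_dee342_nt.Dc

open Finset Gr

/-- `V i = Δ G' i - ∑ φ b G b i` satisfies `V (i+1) nu (s (i+1)) = V i nu (s i)` for
`k ≤ i < k + l` (read the hypothesis at `Fin.castAdd` and `Fin.natAdd`, `Fin.append_left`,
`Fin.append_right`), so by `nu_add` `V (k+l) 2^ℓ = V k a^τ` with `ℓ = s (k+l) - s k ≥ Z`. The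
numbers ` (2a)^t V` are integers `m₁, m₀`, so `2^ℓ ∣ m₀` (`a` odd) and
`|m₀| ≤ (r+1) X (2a)^(2t) Y < 2^Z`. -/
theorem rel {a : ℕ} (ha : Odd a) {x : ℤ} {s : ℕ → ℕ} {p W t r l k Z : ℕ} {Y X : ℚ}
    {A B G : Fin r → ℕ → ℚ} {A' B' G' : ℕ → ℚ} (h : ∀ b, Sl a x s p W t Y (A b) (B b) (G b))
    (h' : Sl a x s p W t Y A' B' G') (h1 : p ≤ k) (h2 : k + l ≤ p + W) (hZ : s k + Z ≤ s (k + l))
    (Δ : ℤ) (φ : Fin r → ℤ) (hΔ : |(Δ : ℚ)| ≤ X) (hφ : ∀ b, |(φ b : ℚ)| ≤ X)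
    (hX : (r + 1) * X * (2 * a : ℚ) ^ (2 * t) * Y < 2 ^ Z)
    (hv : ∀ j, Δ * vec l A' B' k j = ∑ b, φ b * vec l (A b) (B b) k j) :
    Δ * G' k = ∑ b, φ b * G b k := by
  have ha1 : 1 ≤ a := ha.pos
  have ha0 : (0 : ℚ) < a := by exact_mod_cast ha1
  obtain ⟨V, hV⟩ : ∃ V : ℕ → ℚ, ∀ i, V i = Δ * G' i - ∑ b, φ b * G b i := ⟨_, fun _ => rfl⟩
  have s1 : ∀ i < l, V (k + i + 1) * nu a x (s (k + i + 1)) = V (k + i) * nu a x (s (k + i)) := by
    intro i hi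
    have e1 := hv (Fin.castAdd l ⟨i, hi⟩)
    have e2 := hv (Fin.natAdd l ⟨i, hi⟩)
    simp only [vec, Fin.append_left, Fin.append_right] at e1 e2
    have e3 := (h'.1 (k + i) (by omega) (by omega)).1
    have e4 : (∑ b, φ b * G b (k + i + 1)) * nu a x (s (k + i + 1)) =
        (∑ b, φ b * G b (k + i) + ∑ b, φ b * B b (k + i)) * nu a x (s (k + i)) +
          (∑ b, φ b * A b (k + i)) * (eta a x (s (k + i + 1)) - eta a x (s (k + i))) := by
      rw [← sum_add_distrib, sum_mul, sum_mul, sum_mul, ← sum_add_distrib]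
      refine sum_congr rfl fun b _ => ?_
      linear_combination (φ b : ℚ) * ((h b).1 (k + i) (by omega) (by omega)).1
    rw [← e1, ← e2] at e4
    rw [hV, hV]
    linear_combination (Δ : ℚ) * e3 - e4
  have s2 : ∀ i ≤ l, V (k + i) * nu a x (s (k + i)) = V k * nu a x (s k) := by
    intro i
    induction i with
    | zero => exact fun _ => rfl
    | succ i ih => exact fun hi => (s1 i (by omega)).trans (ih (by omega))
  have s3 : ∀ i, p ≤ i → i ≤ p + W → ∃ m : ℤ, (2 * a : ℚ) ^ t * V i = m := by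
    intro i i1 i2
    choose m hm using fun b => ((h b).2 i i1 i2).1
    obtain ⟨m', hm'⟩ := (h'.2 i i1 i2).1
    refine ⟨Δ * m' - ∑ b, φ b * m b, ?_⟩
    push_cast
    rw [hV, mul_sub, mul_sum, ← hm']
    congr 1
    · ring
    · exact sum_congr rfl fun b _ => by rw [← hm b]; ring
  obtain ⟨m₀, hm₀⟩ := s3 k h1 (by omega)
  obtain ⟨m₁, hm₁⟩ := s3 (k + l) (by omega) h2
  obtain ⟨d, hd⟩ := Nat.exists_eq_add_of_le hZ
  have s4 := s2 l le_rfl
  have s5 := nu_add ha1 x (s k) (Z + d)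
  rw [hd, add_assoc] at s4
  have s6 : V (k + l) * 2 ^ (Z + d) = V k * (a : ℚ) ^ od a x (s k) (Z + d) :=
    mul_left_cancel₀ (nu_pos ha1 x (s k)).ne'
      (by linear_combination (a : ℚ) ^ od a x (s k) (Z + d) * s4 - V (k + l) * s5)
  have s7 : m₁ * 2 ^ (Z + d) = m₀ * (a : ℤ) ^ od a x (s k) (Z + d) := by
    have : (m₁ : ℚ) * 2 ^ (Z + d) = m₀ * (a : ℚ) ^ od a x (s k) (Z + d) := by
      rw [← hm₀, ← hm₁]
      linear_combination (2 * a : ℚ) ^ t * s6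
    exact_mod_cast this
  have s8 : (2 : ℤ) ^ Z ∣ m₀ := by
    have c : IsCoprime (2 : ℤ) (a : ℤ) := by
      obtain ⟨c, rfl⟩ := ha
      exact ⟨-c, 1, by push_cast; ring⟩
    exact (c.pow).dvd_of_dvd_mul_right ⟨m₁ * 2 ^ d, by rw [← s7]; ring⟩
  have hX0 : 0 ≤ X := (abs_nonneg _).trans hΔ
  have s9 : |V k| ≤ (r + 1) * (X * ((2 * a : ℚ) ^ t * Y)) := by
    have b1 : |(Δ : ℚ) * G' k| ≤ X * ((2 * a : ℚ) ^ t * Y) := by
      rw [abs_mul]
      exact mul_le_mul hΔ (h'.2 k h1 (by omega)).2 (abs_nonneg _) hX0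
    have b2 : |∑ b, (φ b : ℚ) * G b k| ≤ r * (X * ((2 * a : ℚ) ^ t * Y)) := by
      refine (abs_sum_le_sum_abs _ _).trans ((sum_le_card_nsmul _ _
        (X * ((2 * a : ℚ) ^ t * Y)) fun b _ => ?_).trans (by simp))
      rw [abs_mul]
      exact mul_le_mul (hφ b) ((h b).2 k h1 (by omega)).2 (abs_nonneg _) hX0
    rw [hV]
    linarith [abs_sub (Δ * G' k) (∑ b, (φ b : ℚ) * G b k)]
  have s10 : |m₀| < 2 ^ Z := by
    have : |(m₀ : ℚ)| < 2 ^ Z := by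
      refine lt_of_le_of_lt ?_ hX
      rw [← hm₀, abs_mul, abs_of_pos (by positivity : (0 : ℚ) < (2 * a : ℚ) ^ t)]
      refine (mul_le_mul_of_nonneg_left s9 (by positivity)).trans_eq ?_
      ring
    exact_mod_cast this
  have s11 : m₀ = 0 := Int.eq_zero_of_abs_lt_dvd s8 s10
  rw [s11, Int.cast_zero, hV] at hm₀
  exact sub_eq_zero.1 ((mul_eq_zero.1 hm₀).resolve_left (by positivity))

end Pool.Agent.Lib.MP_dee342_nt.Dc
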