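import Pool.Agent.Lib.MP_dee342_nt.Dc.Det
import Pool.Agent.Lib.MP_dee342_nt.Dc.Evol

/-! A round relation forces a small value. -/

set_option autoImplicit false

namespace Pool.Agent.Lib.MP_dee342_nt.Dc

open Finset Gr

theorem round_rho {a : ℕ} (ha : 1 ≤ a) (x : ℤ) {u v n N : ℕ} (h : u + n ≤ v ∨ v + n ≤ u)
    (h1 : v ≤ u + N) (h2 : u ≤ v + N) : ∃ σ τ : ℕ, n ≤ σ ∧ σ ≤ N ∧ τ ≤ N ∧
      (nu a x v / nu a x u = 2 ^ σ / (a : ℚ) ^ τ ∨ nu a x v / nu a x u = (a : ℚ) ^ τ / 2 ^ σ) := by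
  have h0 : (0 : ℚ) < a := by exact_mod_cast ha
  rcases h with h | h
  · obtain ⟨l, rfl⟩ := Nat.exists_eq_add_of_le (by omega : u ≤ v)
    have := od_le a x u l
    refine ⟨l, od a x u l, by omega, by omega, by omega, Or.inl ?_⟩
    rw [div_eq_div_iff (nu_pos ha x u).ne' (by positivity), nu_add ha, mul_comm]
  · obtain ⟨l, rfl⟩ := Nat.exists_eq_add_of_le (by omega : v ≤ u)
    have := od_le a x v l
    refine ⟨l, od a x v l, by omega, by omega, by omega, Or.inr ?_⟩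
    rw [div_eq_div_iff (nu_pos ha x _).ne' (by positivity), ← nu_add ha, mul_comm]

theorem round_eta {a : ℕ} (ha : Odd a) (x : ℤ) {u v lo hi : ℕ} {M X : ℚ} (hM0 : 0 ≤ M)
    (hM : ∀ i, lo ≤ i → i ≤ hi → nu a x i ≤ M) (hX : ((hi - lo : ℕ) : ℚ) ≤ X) (h1 : lo ≤ u)
    (h2 : u ≤ hi) (h3 : lo ≤ v) (h4 : v ≤ hi) : |eta a x v - eta a x u| ≤ X * M := by
  rcases le_total u v with h | h
  · refine (eta_le ha x h fun i a b => hM i (by omega) (by omega)).trans ?_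
    exact mul_le_mul_of_nonneg_right (le_trans (Nat.cast_le.2 (by omega)) hX) hM0
  · rw [abs_sub_comm]
    refine (eta_le ha x h fun i a b => hM i (by omega) (by omega)).trans ?_
    exact mul_le_mul_of_nonneg_right (le_trans (Nat.cast_le.2 (by omega)) hX) hM0

theorem round_num {X M ν ρ Δ ξ e : ℚ} (hX : 2 ≤ X) (hν : 0 < ν) (hM : ν ≤ M) (h0 : 0 ≤ ρ)
    (h1 : ρ ≤ 1) (hΔ : |Δ| ≤ X) (hξ : |ξ| ≤ X) (he : |e| ≤ X * X * M) :
    |-(Δ * (e / ν + ρ * ξ))| ≤ X ^ 4 * (M / ν) := by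
  have a1 : 1 ≤ M / ν := (one_le_div hν).2 hM
  have a2 : |e / ν| ≤ X * X * (M / ν) := by
    rw [abs_div, abs_of_pos hν, ← mul_div_assoc]
    exact div_le_div_of_nonneg_right he hν.le
  have a3 : |ρ * ξ| ≤ X * (M / ν) := by
    rw [abs_mul, abs_of_nonneg h0]
    have := mul_le_mul h1 hξ (abs_nonneg _) zero_le_one
    nlinarith
  rw [abs_neg, abs_mul]
  have a4 := mul_le_mul hΔ ((abs_add_le _ _).trans (add_le_add a2 a3)) (abs_nonneg _) (by linarith)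
  have a5 : X * X + X ≤ X ^ 3 := by nlinarith
  refine a4.trans ?_
  calc X * (X * X * (M / ν) + X * (M / ν)) = X * (X * X + X) * (M / ν) := by ring
    _ ≤ X * X ^ 3 * (M / ν) := by gcongr
    _ = _ := by ring

/-- Let `X = 2^(n/E) ≥ 2`, `kt = pt + j`, `ks = ps + j`, `i` a point of
`[s (min kt ks), s (max kt ks)]` where `nu` is largest, `M = nu i` (`exists_max_image`),
`ρ = nu (s ps) / nu (s pt)`, of the form needed by `det_small` (`nu_add`, `od_le`). By `evol`,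
`err b = G b ks nu (s ks) - G b kt nu (s kt)` is at most `X * X * M`. Multiply the relation by `ρ`:
`Δ b G b kt - ρ ∑ φ b b' G b' kt = -Δ b (err b / nu (s kt) + ρ ξ b)`, at most
`X (X² + X) M / nu (s kt) ≤ X⁴ M / nu (s kt)`. `det_small` at `b₀` bounds `|eta (s kt)|` by
`X^(e+4) M`, `eta_le` gives `|eta i - eta (s kt)| ≤ X M`; divide by `M`. -/
theorem round (a : ℕ) (ha : Odd a) (r B E : ℕ) (hE : 2 * (r + 1) ≤ E) : ∃ N₀ : ℕ, ∀ n ≥ N₀,
    ∀ (x : ℤ) (s : ℕ → ℕ) (p W t : ℕ) (Y : ℚ) (A B' G : Fin r → ℕ → ℚ) (b₀ : Fin r) (pt ps j : ℕ)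
      (φ : Fin r → Fin r → ℤ) (Δ : Fin r → ℤ) (ξ : Fin r → ℚ), Monotone s →
      (∀ b, Sl a x s p W t Y (A b) (B' b) (G b)) → (∀ k, G b₀ k = ((T a)^[s k] x : ℤ)) →
      p ≤ pt → p ≤ ps → pt + j ≤ p + W → ps + j ≤ p + W → (s pt + n ≤ s ps ∨ s ps + n ≤ s pt) →
      s (p + W) ≤ s p + B * n → nu a x (s ps) ≤ nu a x (s pt) → (2 * a : ℚ) ^ t ≤ 2 ^ (n / E) →
      W + B * n ≤ 2 ^ (n / E) → (∀ i i', |(φ i i' : ℚ)| ≤ 2 ^ (n / E)) →
      (∀ i, Δ i ≠ 0 ∧ |(Δ i : ℚ)| ≤ 2 ^ (n / E)) → (∀ i, |ξ i| ≤ 2 ^ (n / E)) →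
      (∀ b, Δ b * (G b (ps + j) * (nu a x (s (ps + j)) * nu a x (s pt) /
        (nu a x (s (pt + j)) * nu a x (s ps))) + ξ b) = ∑ b', φ b b' * G b' (pt + j)) →
      ∃ i, s p ≤ i ∧ i ≤ s (p + W) ∧ |(T a)^[i] x| ≤ 2 ^ (((r + 1) ^ 2 + 6) * (n / E)) := by
  obtain ⟨N₀, hdet⟩ := det_small a ha r B E hE
  refine ⟨max N₀ E, fun n hn x s p W t Y A B' G b₀ pt ps j φ Δ ξ hs hS hG p1 p2 p3 p4 hfar hB hν
    ht hW hφ hΔ hξ hrel => ?_⟩
  have ha1 : 1 ≤ a := ha.pos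
  have hn1 : 1 ≤ n / E := (Nat.one_le_div_iff (by omega)).2 (le_of_max_le_right hn)
  have hX : (2 : ℚ) ≤ 2 ^ (n / E) := le_self_pow₀ one_le_two (by omega)
  have hW' : ((W + B * n : ℕ) : ℚ) ≤ 2 ^ (n / E) := by exact_mod_cast hW
  have l1 : p ≤ min (pt + j) (ps + j) := by omega
  have l2 : min (pt + j) (ps + j) ≤ max (pt + j) (ps + j) := by omega
  have l3 : max (pt + j) (ps + j) ≤ p + W := by omega
  have m1 := hs l1
  have m2 := hs l2
  have m3 := hs l3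
  have m4 : s (min (pt + j) (ps + j)) ≤ s (pt + j) := hs (by omega)
  have m5 : s (pt + j) ≤ s (max (pt + j) (ps + j)) := hs (by omega)
  obtain ⟨i, hi, hM⟩ := exists_max_image (Icc (s (min (pt + j) (ps + j)))
    (s (max (pt + j) (ps + j)))) (nu a x) (nonempty_Icc.2 m2)
  obtain ⟨i1, i2⟩ := mem_Icc.1 hi
  replace hM := fun u h1 h2 => hM u (mem_Icc.2 ⟨h1, h2⟩)
  have hM0 := nu_pos ha1 x i
  have herr : ∀ b, |G b (ps + j) * nu a x (s (ps + j)) - G b (pt + j) * nu a x (s (pt + j))| ≤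
      2 ^ (n / E) * 2 ^ (n / E) * nu a x i := fun b => by
    have h1 := evol ha hs (hS b) l1 l2 l3 hM
    have h2 : ((max (pt + j) (ps + j) - min (pt + j) (ps + j) + (s (max (pt + j) (ps + j)) -
        s (min (pt + j) (ps + j))) : ℕ) : ℚ) ≤ 2 ^ (n / E) :=
      le_trans (Nat.cast_le.2 (by omega)) hW'
    replace h1 := h1.trans (mul_le_mul_of_nonneg_right
      (mul_le_mul ht h2 (Nat.cast_nonneg _) (by positivity)) hM0.le)
    rcases le_total (pt + j) (ps + j) with h | h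
    · rwa [max_eq_right h, min_eq_left h] at h1
    · rwa [max_eq_left h, min_eq_right h, abs_sub_comm] at h1
  have q1 := hs p1
  have q2 := hs p2
  have q3 : s pt ≤ s (p + W) := hs (by omega)
  have q4 : s ps ≤ s (p + W) := hs (by omega)
  obtain ⟨σ, τ, c1, c2, c3, c4⟩ := round_rho ha1 x (N := B * n) hfar (by omega) (by omega)
  have n1 := nu_pos ha1 x (s pt)
  have n2 := nu_pos ha1 x (s ps)
  have n3 := nu_pos ha1 x (s (pt + j))
  have hρ : nu a x (s ps) / nu a x (s pt) ≤ 1 := (div_le_one n1).2 hν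
  have h1 := hdet n (le_of_max_le_left hn) σ τ φ Δ _
    ((2 ^ (n / E)) ^ 4 * (nu a x i / nu a x (s (pt + j)))) (fun b => G b (pt + j)) c1 c2 c3 c4 hρ
    hφ hΔ (fun b => by
      refine le_of_eq_of_le (congrArg abs ?_) (round_num hX n3 (hM _ m4 m5) (div_pos n2 n1).le hρ
        (hΔ b).2 (hξ b) (herr b))
      rw [← hrel b]
      field_simp
      ring) b₀
  have h2 : |eta a x (s (pt + j))| ≤ (2 ^ (n / E)) ^ ((r + 1) ^ 2 + 4) * nu a x i := by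
    rw [eta, abs_mul, abs_of_pos n3, ← hG]
    refine (mul_le_mul_of_nonneg_right h1 n3.le).trans_eq ?_
    field_simp
    ring
  have h3 := round_eta ha x hM0.le hM (le_trans (Nat.cast_le.2 (by omega)) hW') m4 m5 i1 i2
  have h4 : |(((T a)^[i] x : ℤ) : ℚ)| ≤ (2 ^ (n / E)) ^ ((r + 1) ^ 2 + 4) + 2 ^ (n / E) := by
    refine le_of_mul_le_mul_right ?_ hM0
    have h5 := abs_sub_abs_le_abs_sub (eta a x i) (eta a x (s (pt + j)))
    have h6 : |eta a x i| = |(((T a)^[i] x : ℤ) : ℚ)| * nu a x i := by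
      rw [eta, abs_mul, abs_of_pos hM0]
    linarith
  refine ⟨i, by omega, by omega, ?_⟩
  have h5 : (2 ^ (n / E) : ℚ) ≤ (2 ^ (n / E)) ^ ((r + 1) ^ 2 + 4) :=
    le_self_pow₀ (by linarith) (by omega)
  have h6 : |(((T a)^[i] x : ℤ) : ℚ)| ≤ 2 ^ (((r + 1) ^ 2 + 6) * (n / E)) := by
    rw [mul_comm, pow_mul, show (r + 1) ^ 2 + 6 = (r + 1) ^ 2 + 4 + 2 from rfl, pow_add _ _ 2]
    have h7 : (0 : ℚ) < (2 ^ (n / E)) ^ ((r + 1) ^ 2 + 4) := by positivity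
    have h8 : (2 : ℚ) ≤ (2 ^ (n / E)) ^ 2 := by nlinarith
    nlinarith
  exact_mod_cast h6

end Pool.Agent.Lib.MP_dee342_nt.Dc
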