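import Pool.Agent.Lib.MP_dee342_nt.Dc.Step

/-! Every long window contains a small value. -/

set_option autoImplicit false

namespace Pool.Agent.Lib.MP_dee342_nt.Dc

open Finset Gr

theorem small_base {a : ℕ} (ha : 1 ≤ a) (x : ℤ) (s : ℕ → ℕ) (l p W t N : ℕ)
    (h : ∀ k ≤ p + W, |(T a)^[s k] x| ≤ 2 ^ N) : Fm a x s l 1 p W t (2 ^ N) 0 := by
  refine ⟨fun _ _ => ((1 : ℤ) : ℚ), fun _ _ => ((0 : ℤ) : ℚ), fun _ k => ((T a)^[s k] x : ℤ), 0,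
    fun _ => ⟨fun k _ _ => ⟨?_, ?_, ?_⟩, fun k _ hk => ?_⟩, fun _ => rfl,
    fun _ _ _ => Nat.zero_le _⟩
  · unfold eta
    push_cast
    ring
  · exact (Sm.int (a := a) 1 (by simp)).mono ha (Nat.zero_le _) le_rfl
  · exact (Sm.int (a := a) 0 (by simp)).mono ha (Nat.zero_le _) le_rfl
  · exact (Sm.int (a := a) _ (by exact_mod_cast h k hk)).mono ha (Nat.zero_le _) le_rfl

theorem small_ind (a : ℕ) (ha : Odd a) (ha3 : 3 ≤ a) (C J c E₁ : ℕ) (hE₁ : 1 ≤ E₁) (σ : ℕ) :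
    ∃ E : ℕ, ∀ E₀ ≥ E, ∀ W' : ℕ, ∃ W n₀ : ℕ, ∀ n ≥ n₀, ∀ (x y : ℤ) (q : ℕ) (s o : ℕ → ℕ) (p : ℕ),
      Dict a x y (C * n) n J q s o → p + W ≤ q →
      (∀ k ≤ p + W, |(T a)^[s k] x| ≤ 2 ^ (c * n)) →
      (∃ i, s p ≤ i ∧ i ≤ s (p + W) ∧ |(T a)^[i] x| ≤ 2 ^ (n / E₁)) ∨ ∃ p', p ≤ p' ∧
        p' + W' ≤ p + W ∧
        Fm a x s (J * (c + 2)) (2 ^ σ) p' W' (2 ^ σ * (n / E₀)) (2 ^ (c * n)) σ := by
  induction σ with
  | zero =>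
    exact ⟨0, fun E₀ _ W' => ⟨W', 0, fun n _ x y q s o p _ _ h =>
      Or.inr ⟨p, le_rfl, le_rfl, small_base (by omega) x s _ p W' _ _ h⟩⟩⟩
  | succ σ ih =>
    obtain ⟨E, hE⟩ := ih
    obtain ⟨E', hE'⟩ := step a ha ha3 C J c (2 ^ σ) σ E₁ Nat.one_le_two_pow hE₁
    refine ⟨max E E', fun E₀ h0 W' => ?_⟩
    obtain ⟨W₁, n₁, h1⟩ := hE' E₀ ((le_max_right _ _).trans h0) W'
    obtain ⟨W, n₂, h2⟩ := hE E₀ ((le_max_left _ _).trans h0) W₁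
    refine ⟨W, max n₁ n₂, fun n hn x y q s o p hD hq hb => ?_⟩
    rcases h2 n ((le_max_right _ _).trans hn) x y q s o p hD hq hb with h | ⟨p₁, k1, k2, k3⟩
    · exact Or.inl h
    rcases h1 n ((le_max_left _ _).trans hn) x y q s o p₁ hD (k2.trans hq) k3 with
      ⟨i, l1, l2, l3⟩ | ⟨p₂, l1, l2, l3⟩
    · exact Or.inl ⟨i, (hD.2.1 k1).trans l1, l2.trans (hD.2.1 k2), l3⟩
    · refine Or.inr ⟨p₂, k1.trans l1, l2.trans k2, ?_⟩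
      rw [pow_succ, mul_two]
      exact l3

/-- Prove by induction on `σ`: there is `E` such that for all `E₀ ≥ E` and `W'` there are `W, n₀`
with: small value in `[s p, s (p + W)]`, or `Fm a x s l (2^σ) p' W' (2^σ * (n / E₀)) (2^(c n)) σ`
for some `p ≤ p'`, `p' + W' ≤ p + W` (`l = J (c + 2)`). For `σ = l + l + 1` and `W' = l` the rank
is at most `l + l`. -/
theorem small_time (a : ℕ) (ha : Odd a) (ha3 : 3 ≤ a) (C J c E₁ : ℕ) (hE₁ : 1 ≤ E₁) :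
    ∃ W n₀ : ℕ, ∀ n ≥ n₀, ∀ (x y : ℤ) (q : ℕ) (s o : ℕ → ℕ) (p : ℕ),
      Dict a x y (C * n) n J q s o → p + W ≤ q →
      (∀ k ≤ p + W, |(T a)^[s k] x| ≤ 2 ^ (c * n)) →
      ∃ i, s p ≤ i ∧ i ≤ s (p + W) ∧ |(T a)^[i] x| ≤ 2 ^ (n / E₁) := by
  obtain ⟨E, hE⟩ := small_ind a ha ha3 C J c E₁ hE₁ (J * (c + 2) + J * (c + 2) + 1)
  obtain ⟨W, n₀, h⟩ := hE E le_rfl (J * (c + 2))
  refine ⟨W, n₀, fun n hn x y q s o p hD hq hb => ?_⟩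
  rcases h n hn x y q s o p hD hq hb with h | ⟨p', -, -, A, B, G, b₀, -, -, k⟩
  · exact h
  · have k1 := (k p' le_rfl le_rfl).trans (Submodule.finrank_le _)
    rw [Module.finrank_fin_fun] at k1
    omega

end Pool.Agent.Lib.MP_dee342_nt.Dc
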