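import Pool.Agent.Lib.MP_dee342_nt.Dc.Defs

/-! Small integer relations. -/

set_option autoImplicit false

namespace Pool.Agent.Lib.MP_dee342_nt.Dc

open Finset Gr

/-- Multiply everything by ` (2a)^t`: integer vectors with entries at most `X = (2a)^(2t)`. Choose a
linearly independent subfamily with the same span (`exists_linearIndependent'`), reindex it by
`Fin r'`, `r' ≤ r`; with `w` added (`Fin.snoc` or `Fin.cons`) it is dependent; `small_kernel`
(`RgLin`) gives a small nonzero integer relation, whose coefficient at `w` is nonzero by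
independence; extend the other coefficients by zero (or sum over the fibres). -/
theorem span_small {a t r m : ℕ} (ha : 1 ≤ a) (v : Fin r → Fin m → ℚ) (w : Fin m → ℚ)
    (hv : ∀ b j, Sm a t 1 (v b j)) (hw : ∀ j, Sm a t 1 (w j))
    (h : w ∈ Submodule.span ℚ (Set.range v)) : ∃ (Δ : ℤ) (φ : Fin r → ℤ), Δ ≠ 0 ∧
      |(Δ : ℚ)| ≤ ((r + 1) * (2 * a : ℚ) ^ (2 * t)) ^ (r + 1) ∧
      (∀ b, |(φ b : ℚ)| ≤ ((r + 1) * (2 * a : ℚ) ^ (2 * t)) ^ (r + 1)) ∧
      ∀ j, Δ * w j = ∑ b, φ b * v b j := by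
  classical
  obtain ⟨κ, e, he, hsp, hli⟩ := exists_linearIndependent' ℚ v
  have : Finite κ := Finite.of_injective e he
  let _ : Fintype κ := Fintype.ofFinite κ
  obtain ⟨n, f, hn, hf, hsp', hli'⟩ : ∃ (n : ℕ) (f : Fin n → Fin r), n ≤ r ∧ Function.Injective f ∧
      w ∈ Submodule.span ℚ (Set.range (v ∘ f)) ∧ LinearIndependent ℚ (v ∘ f) := by
    have σ := (Fintype.equivFin κ).symm
    refine ⟨_, e ∘ σ, by simpa using Fintype.card_le_of_injective e he, he.comp σ.injective, ?_,
      hli.comp σ σ.injective⟩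
    rwa [← Function.comp_assoc, σ.surjective.range_comp, hsp]
  choose V hV using fun b j => (hv b j).1
  choose W hW using fun j => (hw j).1
  have h1 : (1 : ℚ) ≤ 2 * a := by exact_mod_cast (by omega : 1 ≤ 2 * a)
  have hN : (0 : ℚ) < (2 * a : ℚ) ^ t := by positivity
  have hb : ∀ {z : ℚ} {M : ℤ}, Sm a t 1 z → (2 * a : ℚ) ^ t * z = M →
      |M| ≤ (2 * a : ℤ) ^ (2 * t) := fun {z M} h2 h3 => by
    have h4 : |(M : ℚ)| ≤ (2 * a : ℚ) ^ (2 * t) := by
      rw [← h3, abs_mul, abs_of_pos hN, two_mul t, pow_add]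
      exact mul_le_mul_of_nonneg_left (by simpa using h2.2) hN.le
    exact_mod_cast h4
  obtain ⟨g, hg⟩ := (Submodule.mem_span_range_iff_exists_fun ℚ).1 hsp'
  obtain ⟨c, c0, c1, c2⟩ := small_kernel
    (Fin.cons W fun i => V (f i) : Fin (n + 1) → Fin m → ℤ) ((2 * a : ℤ) ^ (2 * t))
    (one_le_pow₀ (by omega)) (fun b j => by
      refine Fin.cases ?_ (fun i => ?_) b
      · exact hb (hw j) (hW j)
      · exact hb (hv _ j) (hV _ j)) fun hl => by
      have h2 := Fintype.linearIndependent_iff.1 hl (Fin.cons (-1) g) (by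
        funext j
        have h3 := congrFun hg j
        simp only [Finset.sum_apply, Pi.smul_apply, smul_eq_mul, Function.comp_apply] at h3
        simp only [Finset.sum_apply, Pi.smul_apply, smul_eq_mul, Fin.sum_univ_succ, Fin.cons_zero,
          Fin.cons_succ, ← hV, ← hW, Pi.zero_apply, ← h3, mul_sum]
        rw [← sum_add_distrib]
        exact sum_eq_zero fun i _ => by ring) 0
      simp at h2
  have c3 : ∀ j, c 0 * w j + ∑ i, c (Fin.succ i) * v (f i) j = 0 := fun j => by
    have h2 := congrArg (Int.cast : ℤ → ℚ) (c2 j)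
    simp only [Fin.sum_univ_succ, Fin.cons_zero, Fin.cons_succ] at h2
    push_cast at h2
    simp only [← hV, ← hW] at h2
    refine mul_left_cancel₀ hN.ne' ?_
    rw [mul_zero, ← h2, mul_add, mul_sum]
    congr 1
    · ring
    · exact sum_congr rfl fun i _ => by ring
  have c4 : ∀ b, |(c b : ℚ)| ≤ ((r + 1) * (2 * a : ℚ) ^ (2 * t)) ^ (r + 1) := fun b => by
    have h2 : |(c b : ℚ)| ≤ ((n + 1) * (2 * a : ℚ) ^ (2 * t)) ^ (n + 1) := by
      exact_mod_cast c1 b
    have h3 : (1 : ℚ) ≤ (2 * a : ℚ) ^ (2 * t) := one_le_pow₀ h1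
    have h4 : (n : ℚ) ≤ r := by exact_mod_cast hn
    have h5 : (0 : ℚ) ≤ n := Nat.cast_nonneg n
    refine h2.trans ((pow_le_pow_left₀ (by positivity) ?_ _).trans
      (pow_le_pow_right₀ (by nlinarith) (by omega)))
    exact mul_le_mul_of_nonneg_right (by linarith) (by positivity)
  refine ⟨c 0, fun b => ∑ i, if f i = b then -c (Fin.succ i) else 0, fun h0 => c0 ?_, c4 0,
    fun b => ?_, fun j => ?_⟩
  · have h2 := Fintype.linearIndependent_iff.1 hli' (fun i => (c (Fin.succ i) : ℚ)) (by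
      funext j
      have h3 := c3 j
      rw [h0, Int.cast_zero, zero_mul, zero_add] at h3
      simpa only [Finset.sum_apply, Pi.smul_apply, smul_eq_mul, Function.comp_apply,
        Pi.zero_apply] using h3)
    funext b
    refine Fin.cases h0 (fun i => ?_) b
    exact_mod_cast h2 i
  · by_cases hb' : ∃ i, f i = b
    · obtain ⟨i, rfl⟩ := hb'
      simp only [hf.eq_iff, sum_ite_eq', mem_univ, if_true, Int.cast_neg, abs_neg]
      exact c4 _
    · beta_reduce
      rw [sum_eq_zero fun i _ => if_neg fun h2 => hb' ⟨i, h2⟩, Int.cast_zero, abs_zero]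
      positivity
  · push_cast
    simp only [sum_mul, ite_mul, zero_mul]
    rw [sum_comm]
    simp only [sum_ite_eq, mem_univ, if_true, neg_mul, sum_neg_distrib]
    exact eq_neg_of_add_eq_zero_left (c3 j)

end Pool.Agent.Lib.MP_dee342_nt.Dc
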