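import Pool.Agent.Lib.MP_dee342_nt.Dc.Nu

/-! Transport of a solution between two similar windows. -/

set_option autoImplicit false

namespace Pool.Agent.Lib.MP_dee342_nt.Dc

open Finset Gr

theorem trans_alg {P P' N N₁ N' N₁' D D' u v u' g h g' h' G G₁ B A ξ : ℚ} (hP : P' ≠ 0)
    (hN : N ≠ 0) (hu : u ≠ 0) (hv : v ≠ 0) (hu' : u' ≠ 0) (l1 : N₁ * u = N * v)
    (l2 : D * u = (h - g) * N) (l4 : D' * u' = (h' - g') * N')
    (e : G₁ * N₁' = (G + B) * N' + A * D') :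
    (N₁' * P / (N₁ * P') * G₁ + N' * P / (N * P') * (u / u') * A * ((h - h') / v)) * N₁ =
      (N' * P / (N * P') * G + ξ + (N' * P / (N * P') * B +
        N' * P / (N * P') * (u / u') * A * ((g - g') / u) + -ξ)) * N +
        N' * P / (N * P') * (u / u') * A * D := by
  have h0 : N₁ ≠ 0 := fun c => mul_ne_zero hN hv (by rw [← l1, c, zero_mul])
  have e1 : N₁' * P / (N₁ * P') * G₁ * N₁ = P / P' * (G₁ * N₁') := by field_simp
  rw [add_mul, e1, e, eq_div_of_mul_eq hu l1, eq_div_of_mul_eq hu l2, eq_div_of_mul_eq hu' l4]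
  field_simp
  ring

theorem trans_mu {P P' N N₁ N' N₁' u v u' v' : ℚ} (hP : P' ≠ 0) (hN : N ≠ 0) (hu : u ≠ 0)
    (hv : v ≠ 0) (hu' : u' ≠ 0) (l1 : N₁ * u = N * v) (l3 : N₁' * u' = N' * v') :
    N₁' * P / (N₁ * P') = N' * P / (N * P') * (u / u') * (v' / v) := by
  rw [eq_div_of_mul_eq hu l1, eq_div_of_mul_eq hu' l3]
  field_simp

/-- Write `ν = nu a y`, `η = eta a y`, `o, e` for the two ends of piece `p + j` in the word of `y`
and `o', e'` for piece `p' + j`. Let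
`μ j = nu x (s (p'+j)) * nu x (s p) / (nu x (s (p+j)) * nu x (s p'))`. Then `μ 0 = 1` and, by `link`
for both pieces, `μ (j+1) = μ j * (ν o / ν o') * (ν e' / ν e)`, so `Sm a (2 d j) 1 (μ j)` (`close`,
`Sm.mul`). Put `lam j = μ j * (ν o / ν o')`, `ξ 0 = 0`,
`ξ (j+1) = lam j * A (p'+j) * ((η e - η e') / ν e)`, `A' (p+j) = lam j * A (p'+j)`,
`G' (p+j) = μ j * G (p'+j) + ξ j`,
`B' (p+j) = μ j * B (p'+j) + lam j * A (p'+j) * ((η o - η o') / ν o) - ξ j` (define them through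
`j = k - p`). The equation follows from the one at `p' + j` and the four identities of `link`
(solve them for `nu x (s (k+1))` and the difference of `eta x`, then `field_simp`). -/
theorem trans {a : ℕ} (ha : Odd a) (ha3 : 3 ≤ a) {x y : ℤ} {L n J q : ℕ} {s o : ℕ → ℕ}
    (hD : Dict a x y L n J q s o) {p p' W d t t' : ℕ} (hp : p + W ≤ q) (hp' : p' + W ≤ q)
    (hc : ∀ i < W, Cl d (o (p + i)) (o (p' + i)) ∧
      Cl d (o (p + i) + (s (p + i + 1) - s (p + i))) (o (p' + i) + (s (p' + i + 1) - s (p' + i))))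
    (ht : t + 2 * d * W + 2 ≤ t') {Y : ℚ} (hY : 1 ≤ Y) {A B G : ℕ → ℚ}
    (h : Sl a x s p' W t Y A B G) : ∃ A' B' G' : ℕ → ℚ, Sl a x s p W t' Y A' B' G' ∧
      ∀ j ≤ W, ∃ ξ : ℚ, |ξ| ≤ (2 * a : ℚ) ^ t' ∧ G' (p + j) = G (p' + j) *
        (nu a x (s (p' + j)) * nu a x (s p) / (nu a x (s (p + j)) * nu a x (s p'))) + ξ := by
  have a1 : 1 ≤ a := by omega
  have n0 : ∀ z u, nu a z u ≠ 0 := fun z u => (nu_pos a1 z u).ne'
  have lk : ∀ k < q, nu a x (s (k + 1)) * nu a y (o k) =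
      nu a x (s k) * nu a y (o k + (s (k + 1) - s k)) ∧
      (eta a x (s (k + 1)) - eta a x (s k)) * nu a y (o k) =
        (eta a y (o k + (s (k + 1) - s k)) - eta a y (o k)) * nu a x (s k) := fun k hk => by
    have h1 := link ha x y (s k) (o k) _ (hD.2.2.1 k hk).2
    rwa [Nat.add_sub_cancel' (hD.2.1 k.le_succ)] at h1
  obtain ⟨μ, hμ⟩ : ∃ μ : ℕ → ℚ, ∀ j, μ j =
      nu a x (s (p' + j)) * nu a x (s p) / (nu a x (s (p + j)) * nu a x (s p')) :=
    ⟨_, fun _ => rfl⟩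
  obtain ⟨lam, hl⟩ : ∃ lam : ℕ → ℚ, ∀ j, lam j =
      μ j * (nu a y (o (p + j)) / nu a y (o (p' + j))) := ⟨_, fun _ => rfl⟩
  obtain ⟨ξ, x0, x1⟩ : ∃ ξ : ℕ → ℚ, ξ 0 = 0 ∧ ∀ j, ξ (j + 1) = lam j * A (p' + j) *
      ((eta a y (o (p + j) + (s (p + j + 1) - s (p + j))) -
        eta a y (o (p' + j) + (s (p' + j + 1) - s (p' + j)))) /
        nu a y (o (p + j) + (s (p + j + 1) - s (p + j)))) :=
    ⟨fun j => Nat.casesOn j 0 fun j => lam j * A (p' + j) *
      ((eta a y (o (p + j) + (s (p + j + 1) - s (p + j))) -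
        eta a y (o (p' + j) + (s (p' + j + 1) - s (p' + j)))) /
        nu a y (o (p + j) + (s (p + j + 1) - s (p + j)))), rfl, fun _ => rfl⟩
  have m1 : ∀ j ≤ W, Sm a (2 * d * j) 1 (μ j) := fun j => by
    induction j with
    | zero =>
      intro _
      rw [hμ, add_zero, add_zero, mul_comm (nu a x (s p')),
        div_self (mul_ne_zero (n0 _ _) (n0 _ _))]
      simpa using Sm.int (a := a) (Y := 1) 1 (by simp)
    | succ j ih =>
      intro hj
      have h1 := ((ih (by omega)).mul (close ha ha3 y (And.symm (hc j hj).1)).1).mul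
        (close ha ha3 y (hc j hj).2).1
      rw [hμ, ← trans_mu (n0 _ _) (n0 _ _) (n0 _ _) (n0 _ _) (n0 _ _) (lk (p + j) (by omega)).1
        (lk (p' + j) (by omega)).1] at h1
      rw [hμ]
      exact h1.mono a1 (by rw [mul_add]; omega) le_rfl
  have m2 : ∀ j < W, Sm a (2 * d * j + d + t) 1 (lam j * A (p' + j)) := fun j hj => by
    rw [hl]
    exact ((m1 j hj.le).mul (close ha ha3 y (And.symm (hc j hj).1)).1).mul
      (h.1 (p' + j) (by omega) (by omega)).2.1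
  have m3 : ∀ j ≤ W, Sm a (2 * d * j + t) 1 (ξ j) := by
    rintro (_ | j) hj
    · rw [x0]
      exact (by simpa using Sm.int (a := a) (Y := 1) 0 (by simp) : Sm a 0 1 0).mono a1
        (Nat.zero_le _) le_rfl
    · rw [x1]
      exact ((m2 j hj).mul (close ha ha3 y (hc j hj).2).2).mono a1 (by rw [mul_add]; omega) le_rfl
  have m4 : ∀ j ≤ W, 2 * d * j ≤ 2 * d * W := fun j hj => Nat.mul_le_mul_left _ hj
  refine ⟨fun k => lam (k - p) * A (p' + (k - p)),
    fun k => μ (k - p) * B (p' + (k - p)) + lam (k - p) * A (p' + (k - p)) *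
      ((eta a y (o k) - eta a y (o (p' + (k - p)))) / nu a y (o k)) + -ξ (k - p),
    fun k => μ (k - p) * G (p' + (k - p)) + ξ (k - p), ⟨fun k h1 h2 => ?_, fun k h1 h2 => ?_⟩,
    fun j hj => ⟨ξ j, ?_, ?_⟩⟩
  · obtain ⟨j, rfl⟩ := Nat.exists_eq_add_of_le h1
    have hj : j < W := by omega
    have h3 := h.1 (p' + j) (by omega) (by omega)
    have h4 := m4 (j + 1) hj
    rw [mul_add] at h4
    simp only [Nat.add_sub_cancel_left, show p + j + 1 - p = j + 1 by omega]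
    refine ⟨?_, (m2 j hj).mono a1 (by omega) le_rfl, ?_⟩
    · rw [x1, hl, hμ, hμ]
      exact trans_alg (n0 _ _) (n0 _ _) (n0 _ _) (n0 _ _) (n0 _ _)
        (lk (p + j) (by omega)).1 (lk (p + j) (by omega)).2 (lk (p' + j) (by omega)).2 h3.1
    · have b1 : Sm a (2 * d * W + t) 1 _ := ((m1 j hj.le).mul h3.2.2).mono a1 (by omega) le_rfl
      have b2 : Sm a (2 * d * W + t) 1 _ :=
        ((m2 j hj).mul (close ha ha3 y (hc j hj).1).2).mono a1 (by omega) le_rfl
      have b3 : Sm a (2 * d * W + t + 1) 1 _ := (m3 j hj.le).neg.mono a1 (by omega) le_rfl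
      exact ((b1.add a1 b2).add a1 b3).mono a1 (by omega) le_rfl
  · obtain ⟨j, rfl⟩ := Nat.exists_eq_add_of_le h1
    have hj : j ≤ W := by omega
    have h4 := m4 j hj
    simp only [Nat.add_sub_cancel_left]
    exact ((((m1 j hj).mul (h.2 (p' + j) (by omega) (by omega))).add a1
      ((m3 j hj).mono a1 le_rfl hY))).mono a1 (by omega) le_rfl
  · have h4 := m4 j hj
    simpa using ((m3 j hj).mono a1 (show _ ≤ t' by omega) le_rfl).2
  · simp only [Nat.add_sub_cancel_left]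
    rw [hμ, mul_comm]

end Pool.Agent.Lib.MP_dee342_nt.Dc
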