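import Pool.Agent.Lib.MP_dee342_nt.Dc.Round
import Pool.Agent.Lib.MP_dee342_nt.Dc.Trans
import Pool.Agent.Lib.MP_dee342_nt.Dc.Rel
import Pool.Agent.Lib.MP_dee342_nt.Dc.Span
import Pool.Agent.Lib.MP_dee342_nt.Dc.Num

/-! The rank grows or the orbit has a small value. -/

set_option autoImplicit false

namespace Pool.Agent.Lib.MP_dee342_nt.Dc

open Finset Gr

theorem step_vec {a : ℕ} {x : ℤ} {s : ℕ → ℕ} {p W t l k : ℕ} {Y : ℚ} {A B G : ℕ → ℚ}
    (h : Sl a x s p W t Y A B G) (h1 : p ≤ k) (h2 : k + l ≤ p + W) (j : Fin (l + l)) :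
    Sm a t 1 (vec l A B k j) := by
  unfold vec
  induction j using Fin.addCases with
  | left i =>
    rw [Fin.append_left]
    exact (h.1 _ (by omega) (by omega)).2.1
  | right i =>
    rw [Fin.append_right]
    exact (h.1 _ (by omega) (by omega)).2.2

theorem step_mem {r m σ : ℕ} (v w : Fin r → Fin m → ℚ) (u : Fin (r + r) → Fin m → ℚ)
    (h1 : ∀ b, u (Fin.castAdd r b) = v b) (h2 : ∀ b, u (Fin.natAdd r b) = w b)
    (h3 : σ ≤ Module.finrank ℚ (Submodule.span ℚ (Set.range v)))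
    (h4 : Module.finrank ℚ (Submodule.span ℚ (Set.range u)) < σ + 1) (b : Fin r) :
    w b ∈ Submodule.span ℚ (Set.range v) := by
  have h5 : Submodule.span ℚ (Set.range v) ≤ Submodule.span ℚ (Set.range u) :=
    Submodule.span_mono (by
      rintro _ ⟨b, rfl⟩
      exact ⟨_, h1 b⟩)
  rw [Submodule.eq_of_le_of_finrank_le h5 (by omega)]
  exact Submodule.subset_span ⟨_, h2 b⟩

theorem step (a : ℕ) (ha : Odd a) (ha3 : 3 ≤ a) (C J c r σ E₁ : ℕ) (hr : 1 ≤ r) (hE₁ : 1 ≤ E₁) :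
    ∃ E : ℕ, ∀ E₀ ≥ E, ∀ W' : ℕ, ∃ W n₀ : ℕ, ∀ n ≥ n₀, ∀ (x y : ℤ) (q : ℕ) (s o : ℕ → ℕ) (p : ℕ),
      Dict a x y (C * n) n J q s o → p + W ≤ q →
      Fm a x s (J * (c + 2)) r p W (r * (n / E₀)) (2 ^ (c * n)) σ →
      (∃ i, s p ≤ i ∧ i ≤ s (p + W) ∧ |(T a)^[i] x| ≤ 2 ^ (n / E₁)) ∨ ∃ p', p ≤ p' ∧
        p' + W' ≤ p + W ∧
        Fm a x s (J * (c + 2)) (r + r) p' W' ((r + r) * (n / E₀)) (2 ^ (c * n)) (σ + 1) := by
  obtain ⟨E, hE⟩ : ∃ E, E = E₁ * ((r + 1) ^ 2 + 6) := ⟨_, rfl⟩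
  have hE2 : 2 * (r + 1) ≤ E := by
    rw [hE]
    nlinarith [Nat.mul_le_mul_right ((r + 1) ^ 2 + 6) hE₁]
  have ha1 : 1 ≤ a := by omega
  refine ⟨E * (a * (4 * r + 1) * (r + 1)), fun E₀ hE₀ W' => ?_⟩
  obtain ⟨P, hP⟩ := pigeon (C * (4 * E₀ * (2 * W' + 2))) W' J
  obtain ⟨N₀, hR⟩ := round a ha r ((P + W') * C) E hE2
  obtain ⟨n₁, hN⟩ := num a r E E₀ W' (P + W') ((P + W') * C) ha3 hr (by omega) hE₀
  refine ⟨P + W', N₀ + n₁, fun n hn x y q s o p hD hq hF => ?_⟩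
  obtain ⟨A, B, G, b₀, hS, hb, hk⟩ := hF
  obtain ⟨n1, n2, n3, n4, n5⟩ := hN n (by omega)
  have hn1 : 1 ≤ n := n1.trans ((Nat.div_le_self _ _).trans (Nat.div_le_self _ _))
  generalize n / E₀ / (2 * W' + 2) = d at n1 n2 n3
  have ht : r * (n / E₀) ≤ (r + r) * (n / E₀) := by omega
  generalize r * (n / E₀) = t at hS n3 ht
  generalize (r + r) * (n / E₀) = t' at n3 n4 ht ⊢
  have q1 : (1 : ℚ) ≤ 2 * a := by exact_mod_cast (by omega : 1 ≤ 2 * a)
  have q2 : (2 * a : ℚ) ^ t' ≤ (r + 1) * (2 * a : ℚ) ^ (2 * t') :=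
    (pow_le_pow_right₀ q1 (by omega)).trans (le_mul_of_one_le_left (by positivity) (by simp))
  have q3 : (r + 1) * (2 * a : ℚ) ^ (2 * t') ≤ 2 ^ (n / E) :=
    (le_self_pow₀ ((one_le_pow₀ q1).trans q2) (by omega)).trans n4
  have q4 : (r + 1) * 2 ^ (n / E) * (2 * a : ℚ) ^ (2 * t') * 2 ^ (c * n) < 2 ^ ((c + 2) * n) := by
    have h1 : n / E ≤ n / 2 := Nat.div_le_div_left (by omega) two_pos
    calc _ = (r + 1) * (2 * a : ℚ) ^ (2 * t') * (2 ^ (n / E) * 2 ^ (c * n)) := by ring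
      _ ≤ 2 ^ (n / E) * (2 ^ (n / E) * 2 ^ (c * n)) := by gcongr
      _ = 2 ^ (n / E + (n / E + c * n)) := by rw [pow_add, pow_add]
      _ < _ := pow_lt_pow_right₀ one_lt_two (by rw [add_mul]; omega)
  have core : ∀ pt ps, p ≤ pt → p ≤ ps → pt ≤ p + P → ps ≤ p + P →
      (∀ i < W', Cl d (o (pt + i)) (o (ps + i)) ∧ Cl d (o (pt + i) + (s (pt + i + 1) - s (pt + i)))
        (o (ps + i) + (s (ps + i + 1) - s (ps + i)))) →
      (s pt + n ≤ s ps ∨ s ps + n ≤ s pt) → nu a x (s ps) ≤ nu a x (s pt) →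
      (∃ i, s p ≤ i ∧ i ≤ s (p + (P + W')) ∧ |(T a)^[i] x| ≤ 2 ^ (n / E₁)) ∨ ∃ p', p ≤ p' ∧
        p' + W' ≤ p + (P + W') ∧ Fm a x s (J * (c + 2)) (r + r) p' W' t' (2 ^ (c * n)) (σ + 1) := by
    intro pt ps h1 h2 h3 h4 hc hsep hnu
    choose A' B' G' hS' hξ using fun b => trans ha ha3 hD (p := pt) (p' := ps) (by omega) (by omega)
      hc n3 (one_le_pow₀ one_le_two) ((hS b).sub ha1 h2 (by omega) le_rfl)
    have hS1 := fun b => (hS b).sub (p' := pt) (W' := W') ha1 h1 (by omega) ht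
    by_cases hall : ∀ k, pt ≤ k → k + J * (c + 2) ≤ pt + W' → σ + 1 ≤ Module.finrank ℚ
        (Submodule.span ℚ (Set.range fun b => vec (J * (c + 2)) (Fin.append A A' b)
          (Fin.append B B' b) k))
    · refine Or.inr ⟨pt, h1, by omega, Fin.append A A', Fin.append B B', Fin.append G G',
        Fin.castAdd r b₀, fun b => ?_, by simpa only [Fin.append_left] using hb, hall⟩
      induction b using Fin.addCases with
      | left i => simpa only [Fin.append_left] using hS1 i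
      | right i => simpa only [Fin.append_right] using hS' i
    left
    push Not at hall
    obtain ⟨k, k1, k2, k3⟩ := hall
    obtain ⟨j, rfl⟩ := Nat.exists_eq_add_of_le k1
    choose Δ φ d1 d2 d3 d4 using fun b => span_small ha1 _ _
      (fun b => step_vec (hS1 b) k1 k2) (step_vec (hS' b) k1 k2)
      (step_mem _ (fun b => vec (J * (c + 2)) (A' b) (B' b) (pt + j)) _
        (fun b => by simp only [Fin.append_left]) (fun b => by simp only [Fin.append_right])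
        (hk _ (by omega) (by omega)) k3 b)
    choose ξ x1 x2 using fun b => hξ b j (by omega)
    have h5 := hD.len p (P + W') hq
    obtain ⟨i, i1, i2, i3⟩ := hR n (by omega) x s p (P + W') t' _ A B G b₀ pt ps j φ Δ ξ hD.2.1
      (fun b => (hS b).sub ha1 le_rfl le_rfl ht) hb h1 h2 (by omega) (by omega) hsep
      (by rwa [mul_assoc]) hnu (q2.trans q3) n5 (fun i i' => (d3 i i').trans n4)
      (fun i => ⟨d1 i, (d2 i).trans n4⟩) (fun i => (x1 i).trans (q2.trans q3)) fun b => by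
        rw [← x2 b]
        exact rel ha hS1 (hS' b) k1 k2 (hD.far _ _ (by omega)) _ _ ((d2 b).trans n4)
          (fun b' => (d3 b b').trans n4) q4 (d4 b)
    refine ⟨i, i1, i2, i3.trans (pow_le_pow_right₀ one_le_two ?_)⟩
    rw [hE, ← Nat.div_div_eq_div_mul]
    exact Nat.mul_div_le _ _
  obtain ⟨p₁, p₂, g1, g2, g3, g4⟩ := hP o (fun k => o k + (s (k + 1) - s k)) p d n1 fun k _ h => by
    have h1 := (hD.2.2.1 k (by omega)).1.trans (Nat.mul_le_mul_left C n2)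
    rw [← mul_assoc] at h1
    exact ⟨by omega, h1⟩
  have g5 : s p₁ + n ≤ s p₂ := (hD.2.2.2 p₁ (by omega)).trans (hD.2.1 g2)
  rcases le_total (nu a x (s p₂)) (nu a x (s p₁)) with h | h
  · exact core p₁ p₂ g1 (by omega) (by omega) g3 g4 (Or.inl g5) h
  · exact core p₂ p₁ (by omega) g1 g3 (by omega)
      (fun i hi => ⟨(g4 i hi).1.symm, (g4 i hi).2.symm⟩) (Or.inr g5) h

end Pool.Agent.Lib.MP_dee342_nt.Dc
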